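import Pool.Agent.HQL.No
import Pool.Agent.HQ.R211
import Pool.Agent.HQ.MinRoot

/-!
# HQL module Fin: the Julia set is in the closure of the saddles (paper 13.2)
-/

set_option autoImplicit false

open Filter Topology Set Metric

namespace Pool.Agent.HQ

/-- the scaled curve of a point of an unstable manifold away from the closure of the saddles -/
theorem Fin_pt (R : QS) {κ Λ : ℝ} (hg : Gr R κ Λ) {N : ℕ} (hN : Λ ≤ κ ^ N) (hF2 : R.F2)
    (hc : ∀ ξ ∈ R.U, ∀ v, R.P (ξ v) = 0 → ∃ᶠ t in 𝓝 v, 0 < R.P (ξ t)) {y : E}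
    (hy : y ∈ R.WW) (hyJ : y ∉ closure (Sad R.F)) :
    ∃ x ∈ closure (Sad R.F), ∃ n : ℤ, ∃ η ∈ R.U, ∃ v : ℂ, 1 / Λ ≤ ‖v‖ ∧ ‖v‖ ≤ 1 ∧
      (∀ z, ‖z - v‖ < (1 / 3) ^ N * ‖v‖ → 0 < R.P (η z)) ∧ η v = (R.F ^ n) y ∧
      η 0 = (R.F ^ n) x := by
  obtain ⟨p, hp, hyp⟩ := mem_iUnion₂.1 hy
  rw [← (R.hu p hp).range] at hyp
  obtain ⟨w, rfl⟩ := hyp
  have hXU := Xu_mem_U R hp
  have hXc := (U_diff R hXU).continuous
  have hzero : ∀ z, R.P (R.Xu p z) = 0 → R.Xu p z ∈ closure (Sad R.F) := fun z hz =>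
    hF2 p hp z hz (hc _ hXU z hz)
  have hpos : 0 < R.P (R.Xu p w) := by
    refine lt_of_le_of_ne (R.P0 _) fun h => hyJ (hzero w h.symm)
  -- the nearest zero
  have hcl : IsClosed {z | R.P (R.Xu p z) = 0} :=
    isClosed_eq (R.cP.comp hXc) continuous_const
  have hne : {z | R.P (R.Xu p z) = 0}.Nonempty := by
    refine ⟨0, ?_⟩
    show R.P (R.Xu p 0) = 0
    rw [(R.hu p hp).zero]
    exact R.toSys.Sad_P hp
  obtain ⟨w', hw', hdist⟩ := hcl.exists_infDist_eq_dist hne w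
  have hw'0 : R.P (R.Xu p w') = 0 := hw'
  have hball : ∀ z, ‖z - w‖ < ‖w' - w‖ → 0 < R.P (R.Xu p z) := by
    intro z hz
    refine lt_of_le_of_ne (R.P0 _) fun h => ?_
    have h1 : infDist w {z | R.P (R.Xu p z) = 0} ≤ dist w z := infDist_le_dist_of_mem h.symm
    rw [hdist, dist_eq_norm, dist_eq_norm, norm_sub_rev w w', norm_sub_rev w z] at h1
    linarith
  obtain ⟨q, hq, ξ, hξ, hξ0, -⟩ := U_center R (hzero w' hw'0)
  have h0 : ξ 0 ∈ Wu R.F p := by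
    rw [hξ0, ← (R.hu p hp).range]
    exact mem_range_self _
  obtain ⟨τ, hτ1, hτ2, hτ⟩ := Rpoly R hg hN hp hξ h0
  have hτ0 : τ.eval 0 = w' := by
    apply (R.hu p hp).inj
    rw [← hτ, hξ0]
  have hne' : τ.eval 0 ≠ w := by
    rw [hτ0]
    rintro rfl
    exact absurd hw'0 hpos.ne'
  obtain ⟨u, hu0, hu1, -, hu2⟩ := min_root hτ2 hτ1 hne'
  obtain ⟨n, η, hη, a, ha0, hFa, h1, h2, -⟩ := hg.scale hξ hu0
  refine ⟨_, hzero w' hw'0, n, η, hη, a * u, h1, h2, ?_, ?_, ?_⟩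
  · intro z hz
    have hz' : ‖z / a - u‖ < (1 / 3) ^ N * ‖u‖ := by
      have ha : 0 < ‖a‖ := norm_pos_iff.2 ha0
      have e : z / a - u = (z - a * u) / a := by
        field_simp
      rw [e, norm_div, div_lt_iff₀ ha]
      rw [norm_mul] at hz
      linarith
    have h3 := hu2 _ hz'
    rw [hτ0] at h3
    have h4 := hball _ h3
    rw [← hτ] at h4
    have h5 : (R.F ^ n) (ξ (z / a)) = η z := by
      rw [hFa, mul_div_cancel₀ _ ha0]
    rw [← h5, R.toSys.P_zpow]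
    exact mul_pos (zpow_pos R.d_pos n) h4
  · rw [← hFa, hτ, hu1]
  · rw [← hξ0, hFa, mul_zero]

theorem Fin_main (R : QS) (hF1 : R.F1) (hF2 : R.F2)
    (hc : ∀ ξ ∈ R.U, ∀ v, R.P (ξ v) = 0 → ∃ᶠ t in 𝓝 v, 0 < R.P (ξ t)) {y : E}
    (hy : y ∈ frontier R.Km) (hy0 : R.P y = 0) : y ∈ closure (Sad R.F) := by
  by_contra hyJ
  obtain ⟨κ, Λ, hg⟩ := growth R
  obtain ⟨N, hN'⟩ := pow_unbounded_of_one_lt Λ hg.one_lt
  have hN : Λ ≤ κ ^ N := hN'.le
  have hκ0 : 0 < κ := lt_trans zero_lt_one hg.one_lt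
  have hΛ0 : 0 < Λ := lt_of_lt_of_le hκ0 hg.le
  obtain ⟨y', hy'W, hy'⟩ := mem_closure_iff_seq_limit.1 (hF1 hy)
  have hev : ∀ᶠ i in atTop, y' i ∉ closure (Sad R.F) :=
    hy'.eventually (isClosed_closure.isOpen_compl.mem_nhds hyJ)
  obtain ⟨n₀, hn₀⟩ := eventually_atTop.1 hev
  set Y : ℕ → E := fun i => y' (i + n₀) with hY
  have hYlim : Tendsto Y atTop (𝓝 y) := hy'.comp (tendsto_add_atTop_nat n₀)
  choose x hx n η hη v hv1 hv2 hv3 hv4 hv5 using fun i =>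
    Fin_pt R hg hN hF2 hc (hy'W (i + n₀)) (hn₀ (i + n₀) (Nat.le_add_left _ _))
  obtain ⟨C, hC, hback⟩ := hg.back 1
  by_cases hb : ∃ B : ℤ, ∀ᶠ i in atTop, n i ≤ B
  · obtain ⟨B, hB⟩ := hb
    -- limits
    obtain ⟨φ, hφ, ζ, hζ, hlim⟩ := U_seq R hη
    obtain ⟨v₀, hv₀, ψ, hψ, hlim2⟩ := (isCompact_closedBall (0 : ℂ) 1).tendsto_subseq
      (x := fun i => v (φ i)) (fun i => by rw [mem_closedBall, dist_zero_right]; exact hv2 _)
    have hmono : Tendsto (fun i => φ (ψ i)) atTop atTop :=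
      hφ.tendsto_atTop.comp hψ.tendsto_atTop
    have hpt : ∀ z, Tendsto (fun i => η (φ (ψ i)) z) atTop (𝓝 (ζ z)) := fun z =>
      (UBas_pt hlim z).comp hψ.tendsto_atTop
    set ρ : ℝ := (1 / 3) ^ N * (1 / Λ) with hρ
    have hρ0 : 0 < ρ := by positivity
    have hPy : Tendsto (fun i => R.d ^ B * R.P (Y (φ (ψ i)))) atTop (𝓝 0) := by
      have h1 : Tendsto (fun i => R.P (Y (φ (ψ i)))) atTop (𝓝 (R.P y)) :=
        ((R.cP.tendsto y).comp hYlim).comp hmono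
      rw [hy0] at h1
      simpa using h1.const_mul (R.d ^ B)
    have hsmall : ∀ᶠ i in atTop, R.P (η (φ (ψ i)) (v (φ (ψ i)))) ≤
        R.d ^ B * R.P (Y (φ (ψ i))) := by
      filter_upwards [hmono.eventually hB] with i hi
      rw [hv4, R.toSys.P_zpow]
      exact mul_le_mul_of_nonneg_right (zpow_le_zpow_right₀ R.hd.le hi) (R.P0 _)
    have hzero : ∀ z, ‖z - v₀‖ < ρ / 4 → R.P (ζ z) = 0 := by
      intro z hz
      have h1 : Tendsto (fun i => R.P (η (φ (ψ i)) z)) atTop (𝓝 (R.P (ζ z))) :=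
        (R.cP.tendsto _).comp (hpt z)
      have h2 : Tendsto (fun i => 3 * (R.d ^ B * R.P (Y (φ (ψ i))))) atTop (𝓝 0) := by
        simpa using hPy.const_mul 3
      have h3 : ∀ᶠ i in atTop, ‖v (φ (ψ i)) - v₀‖ < ρ / 4 := by
        have := (tendsto_iff_norm_sub_tendsto_zero.1 hlim2).eventually
          (gt_mem_nhds (by positivity : (0 : ℝ) < ρ / 4))
        exact this
      have h4 : R.P (ζ z) ≤ 0 := by
        refine le_of_tendsto_of_tendsto h1 h2 ?_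
        filter_upwards [hsmall, h3] with i hi1 hi2
        have hdz : dist z (v (φ (ψ i))) ≤ ρ / 2 := by
          rw [dist_eq_norm]
          have : ‖z - v (φ (ψ i))‖ ≤ ‖z - v₀‖ + ‖v (φ (ψ i)) - v₀‖ := by
            have h5 := norm_sub_le (z - v₀) (v (φ (ψ i)) - v₀)
            rwa [sub_sub_sub_cancel_right] at h5
          linarith
        have hH := R.hP (η (φ (ψ i))) (v (φ (ψ i))) ρ hρ0
          (U_diff R (hη _)).differentiableOn (fun t ht => by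
            apply hv3
            rw [mem_ball, dist_eq_norm] at ht
            refine lt_of_lt_of_le ht ?_
            exact mul_le_mul_of_nonneg_left (hv1 _) (by positivity)) z (by
            rw [mem_ball]
            linarith)
        refine hH.2.trans ?_
        have hd0 : 0 ≤ dist z (v (φ (ψ i))) := dist_nonneg
        have h6 : (ρ + dist z (v (φ (ψ i)))) / (ρ - dist z (v (φ (ψ i)))) ≤ 3 := by
          rw [div_le_iff₀ (by linarith)]
          linarith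
        exact mul_le_mul h6 hi1 (R.P0 _) (by norm_num)
      exact le_antisymm h4 (R.P0 _)
    have hfr := hc ζ hζ v₀ (hzero v₀ (by rw [sub_self, norm_zero]; positivity))
    apply hfr
    have hb : ball v₀ (ρ / 4) ∈ 𝓝 v₀ := ball_mem_nhds v₀ (by positivity)
    filter_upwards [hb] with t ht
    rw [mem_ball, dist_eq_norm] at ht
    rw [hzero t ht]
    exact lt_irrefl 0
  · push Not at hb
    -- the points are close to the closure of the saddles
    apply hyJ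
    rw [Metric.mem_closure_iff]
    intro ε hε
    have hκ1 : κ⁻¹ < 1 := inv_lt_one_of_one_lt₀ hg.one_lt
    have hlimC : Tendsto (fun k : ℕ => C * κ⁻¹ ^ k) atTop (𝓝 0) := by
      simpa using (tendsto_pow_atTop_nhds_zero_of_lt_one (inv_nonneg.2 hκ0.le) hκ1).const_mul C
    obtain ⟨k₀, hk₀⟩ := (hlimC.eventually (gt_mem_nhds (by positivity : (0 : ℝ) < ε / 3))).exists
    have h1 : ∀ᶠ i in atTop, dist (Y i) y < ε / 3 := by
      have := (tendsto_iff_dist_tendsto_zero.1 hYlim).eventually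
        (gt_mem_nhds (by positivity : (0 : ℝ) < ε / 3))
      exact this
    obtain ⟨i, hi1, hi2⟩ := ((hb k₀).and_eventually h1).exists
    -- the number of steps
    obtain ⟨k, hk⟩ := Int.eq_ofNat_of_zero_le (show 0 ≤ n i by omega)
    have hkk : k₀ ≤ k := by omega
    have h3 := hback (η i) (hη i) (v i) (hv2 i) k
    rw [hv4, hv5, hk] at h3
    have hinv : ∀ t : E, (R.F⁻¹ ^ k) ((R.F ^ ((k : ℕ) : ℤ)) t) = t := by
      intro t
      rw [inv_pow, zpow_natCast]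
      exact (R.F ^ k).symm_apply_apply t
    have h3' : dist (Y i) (x i) ≤ C * κ⁻¹ ^ k * ‖v i‖ := by
      have e1 := hinv (y' (i + n₀))
      have e2 := hinv (x i)
      have h4 : dist ((R.F⁻¹ ^ k) ((R.F ^ ((k : ℕ) : ℤ)) (y' (i + n₀))))
        ((R.F⁻¹ ^ k) ((R.F ^ ((k : ℕ) : ℤ)) (x i))) ≤ C * κ⁻¹ ^ k * ‖v i‖ := h3
      rw [e1, e2] at h4
      exact h4
    have h5 : C * κ⁻¹ ^ k * ‖v i‖ ≤ C * κ⁻¹ ^ k₀ := by
      have h6 : κ⁻¹ ^ k ≤ κ⁻¹ ^ k₀ :=
        pow_le_pow_of_le_one (inv_nonneg.2 hκ0.le) hκ1.le hkk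
      have h7 : 0 ≤ κ⁻¹ ^ k := pow_nonneg (inv_nonneg.2 hκ0.le) _
      calc C * κ⁻¹ ^ k * ‖v i‖ ≤ C * κ⁻¹ ^ k * 1 :=
            mul_le_mul_of_nonneg_left (hv2 i) (mul_nonneg hC h7)
        _ = C * κ⁻¹ ^ k := mul_one _
        _ ≤ C * κ⁻¹ ^ k₀ := mul_le_mul_of_nonneg_left h6 hC
    obtain ⟨s, hs, hs2⟩ := Metric.mem_closure_iff.1 (hx i) (ε / 3) (by positivity)
    refine ⟨s, hs, ?_⟩
    have h8 : dist y s ≤ dist (Y i) y + dist (Y i) (x i) + dist (x i) s := by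
      have := dist_triangle4_left y s (Y i) (x i)
      have h9 := dist_triangle y (Y i) s
      have h10 := dist_triangle (Y i) (x i) s
      rw [dist_comm y (Y i)] at h9
      linarith
    linarith

theorem julia_sub (Q : QS) (hP : LemP Q) (hF1 : Q.F1)
    (hF1s : Q.dual.F1) (hF2 : Q.F2) (hV : interior Q.Km ⊆ interior Q.Kp) : Q.H5 := by
  intro y hyP hyM hyi
  have hfr : y ∈ frontier Q.dual.Km := by
    rw [QS.dual_Km]
    refine ⟨subset_closure hyP, hyi⟩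
  have h := Fin_main Q.dual hF1s (F2_dual Q hP hF1 hF2)
    (fun ξ hξ v hv => no_int Q hP hF1 hF2 hV ξ (by rwa [Q.dual_U] at hξ) v hv) hfr hyM
  rwa [QS.dual_Sad] at h

end Pool.Agent.HQ
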