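import Pool.Agent.HQL.Defs
import Pool.Agent.HQ.UBas

/-!
# HQL module Cu: curves of U leave their centre (paper 10.6)
-/

set_option autoImplicit false

open Filter Topology Set Metric

namespace Pool.Agent.HQ

theorem Cu_sub {G : ℕ → ℂ → E} {η : ℂ → E} (h : TendstoLocallyUniformly G η atTop)
    {φ : ℕ → ℕ} (hφ : StrictMono φ) : TendstoLocallyUniformly (fun n => G (φ n)) η atTop := by
  intro u hu x
  obtain ⟨t, ht1, ht2⟩ := h u hu x
  exact ⟨t, ht1, hφ.tendsto_atTop.eventually ht2⟩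

/-- (10.6) -/
theorem exists_cU (Q : QS) : ∃ c > 0, ∀ ξ ∈ Q.U, ∃ r : ℝ, 1 / 2 ≤ r ∧ r ≤ 1 ∧
    ∀ w : ℂ, ‖w‖ = r → c ≤ ‖ξ w - ξ 0‖ := by
  by_contra hcon
  push Not at hcon
  have h1 : ∀ n : ℕ, ∃ ξ ∈ Q.U, ∀ r : ℝ, 1 / 2 ≤ r → r ≤ 1 →
      ∃ w : ℂ, ‖w‖ = r ∧ ‖ξ w - ξ 0‖ < 1 / ((n : ℝ) + 1) := fun n => hcon _ (by positivity)
  choose ξ hξ hw using h1
  obtain ⟨φ, hφ, η, hη, hlim⟩ := U_seq Q hξ
  have hd : Differentiable ℂ η := U_diff Q hη
  have hz : ∀ r : ℝ, 1 / 2 ≤ r → r ≤ 1 → ∃ w : ℂ, ‖w‖ = r ∧ η w = η 0 := by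
    intro r hr1 hr2
    choose w hwr hw2 using fun n => hw n r hr1 hr2
    obtain ⟨w', hw', ψ, hψ, hl⟩ := (isCompact_sphere (0 : ℂ) r).tendsto_subseq
      (x := fun n => w (φ n)) (fun n => by
        rw [mem_sphere, dist_zero_right]; exact hwr _)
    rw [mem_sphere, dist_zero_right] at hw'
    refine ⟨w', hw', ?_⟩
    have h2 := Cu_sub hlim hψ
    have h3 : Tendsto (fun n => ξ (φ (ψ n)) (w (φ (ψ n)))) atTop (𝓝 (η w')) :=
      UBas_cont Q hd.continuous h2 hl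
    have h4 : Tendsto (fun n => ξ (φ (ψ n)) 0) atTop (𝓝 (η 0)) := UBas_pt h2 0
    have h5 := h3.sub h4
    have h6 : Tendsto (fun n => ξ (φ (ψ n)) (w (φ (ψ n))) - ξ (φ (ψ n)) 0) atTop (𝓝 0) := by
      have h7 : Tendsto (fun n : ℕ => 1 / ((φ (ψ n) : ℝ) + 1)) atTop (𝓝 0) :=
        (tendsto_one_div_add_atTop_nhds_zero_nat (𝕜 := ℝ)).comp (hφ.comp hψ).tendsto_atTop
      exact squeeze_zero_norm (fun n => (hw2 (φ (ψ n))).le) h7
    exact sub_eq_zero.1 (tendsto_nhds_unique h5 h6)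
  have hr : ∀ n : ℕ, 1 / 2 ≤ 1 / 2 + 1 / ((n : ℝ) + 1) / 2 ∧
      1 / 2 + 1 / ((n : ℝ) + 1) / 2 ≤ 1 := by
    intro n
    have h8 : 1 / ((n : ℝ) + 1) ≤ 1 := by
      rw [div_le_one (by positivity)]
      have : (0 : ℝ) ≤ n := Nat.cast_nonneg n
      linarith
    have h9 : 0 < 1 / ((n : ℝ) + 1) := by positivity
    constructor <;> linarith
  choose w hwn hwe using fun n => hz _ (hr n).1 (hr n).2
  obtain ⟨w', hw', ψ, hψ, hl⟩ := (isCompact_closedBall (0 : ℂ) 1).tendsto_subseq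
    (x := w) (fun n => by rw [mem_closedBall, dist_zero_right, hwn]; exact (hr n).2)
  have hn1 : Tendsto (fun n => ‖w (ψ n)‖) atTop (𝓝 ‖w'‖) := (continuous_norm.tendsto _).comp hl
  have hn2 : Tendsto (fun n => ‖w (ψ n)‖) atTop (𝓝 (1 / 2)) := by
    have h10 : Tendsto (fun n : ℕ => 1 / 2 + 1 / ((n : ℝ) + 1) / 2) atTop (𝓝 (1 / 2 + 0 / 2)) :=
      ((tendsto_one_div_add_atTop_nhds_zero_nat (𝕜 := ℝ)).div_const 2).const_add _
    simp only [zero_div, add_zero] at h10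
    have h11 := h10.comp hψ.tendsto_atTop
    refine h11.congr fun n => ?_
    rw [Function.comp, hwn]
  have hn3 : ‖w'‖ = 1 / 2 := tendsto_nhds_unique hn1 hn2
  have hne : ∀ n, w (ψ n) ≠ w' := by
    intro n h12
    have h13 := hwn (ψ n)
    rw [h12, hn3] at h13
    have h9 : 0 < 1 / ((ψ n : ℝ) + 1) := by positivity
    linarith
  have hfreq : ∃ᶠ z in 𝓝[≠] w', η z = (fun _ => η 0) z := by
    have h14 : Tendsto (fun n => w (ψ n)) atTop (𝓝[≠] w') :=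
      tendsto_nhdsWithin_iff.2 ⟨hl, Eventually.of_forall fun n => hne n⟩
    exact h14.frequently (Frequently.of_forall fun n => hwe _)
  have hA : AnalyticOnNhd ℂ η univ := fun z _ =>
    (hd.differentiableOn (s := univ)).analyticAt univ_mem
  have heq := hA.eq_of_frequently_eq analyticOnNhd_const hfreq
  obtain ⟨a, b, hab⟩ := U_ne Q hη
  exact hab (by rw [heq])

end Pool.Agent.HQ
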