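import Pool.Agent.HQL.Ku
import Pool.Agent.HQL.Cu
import Pool.Agent.HQ.G28

/-!
# HQL module Ck: components through frontier points stay in KR 1 (paper 10.7)
-/

set_option autoImplicit false

open Filter Topology Set Metric

namespace Pool.Agent.HQ

/-- (10.7) -/
theorem comp_KR (Q : QS) {c : ℝ}
    (hc : ∀ ξ ∈ Q.U, ∃ r : ℝ, 1 / 2 ≤ r ∧ r ≤ 1 ∧ ∀ w : ℂ, ‖w‖ = r → c ≤ ‖ξ w - ξ 0‖)
    {ξ : ℂ → E} (hξ : ξ ∈ Q.U) {B : Set E} (hB : ∀ x ∈ B, ∀ y ∈ B, ‖x - y‖ < c) {D : Set ℂ}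
    (hD : IsPreconnected D) (hDB : ∀ z ∈ D, ξ z ∈ B) {b : ℂ} (hb : b ∈ D)
    (hbs : ξ b ∈ closure (Sad Q.F)) : ∀ z ∈ D, ξ z ∈ Q.KR 1 := by
  obtain ⟨-, -, ξ2, hξ2, hξ20, -⟩ := U_center Q hbs
  obtain ⟨r, hr1, hr2, hr⟩ := hc ξ2 hξ2
  have hr0 : 0 < r := by linarith
  set V : Set ℂ := {z | ∃ w : ℂ, ‖w‖ < r ∧ ξ2 w = ξ z} with hV
  set C : Set ℂ := ξ ⁻¹' (ξ2 '' closedBall 0 r) with hC
  have hVC : V ⊆ C := by
    rintro z ⟨w, hw, hwz⟩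
    exact ⟨w, by rw [mem_closedBall, dist_zero_right]; exact hw.le, hwz⟩
  have hVo : IsOpen V := by
    rw [Metric.isOpen_iff]
    rintro z ⟨w, hw, hwz⟩
    obtain ⟨ρ, hρ, hρ2⟩ := germG Q hξ hξ2 hwz.symm (r - ‖w‖) (sub_pos.2 hw)
    refine ⟨ρ, hρ, fun z' hz' => ?_⟩
    obtain ⟨w', hw', hw'z⟩ := hρ2 z' hz'
    refine ⟨w', ?_, hw'z⟩
    rw [mem_ball, dist_eq_norm] at hw'
    have h1 : ‖w'‖ ≤ ‖w' - w‖ + ‖w‖ := by
      have := norm_add_le (w' - w) w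
      rwa [sub_add_cancel] at this
    linarith
  have hCc : IsClosed C := by
    have h1 : IsCompact (ξ2 '' closedBall 0 r) :=
      (isCompact_closedBall (0 : ℂ) r).image (U_diff Q hξ2).continuous
    exact h1.isClosed.preimage (U_diff Q hξ).continuous
  have hCD : ∀ z ∈ D, z ∈ C → z ∈ V := by
    rintro z hz ⟨w, hw, hwz⟩
    rw [mem_closedBall, dist_zero_right] at hw
    rcases hw.lt_or_eq with h | h
    · exact ⟨w, h, hwz⟩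
    · exfalso
      have h1 := hr w h
      rw [hwz, hξ20] at h1
      have h2 := hB _ (hDB z hz) _ (hDB b hb)
      linarith
  have hDC : D ⊆ C := by
    by_contra hcon
    obtain ⟨z0, hz0, hz0C⟩ := Set.not_subset.1 hcon
    obtain ⟨z, -, hz1, hz2⟩ := hD V Cᶜ hVo hCc.isOpen_compl
      (fun z hz => by
        by_cases h : z ∈ C
        · exact Or.inl (hCD z hz h)
        · exact Or.inr h)
      ⟨b, hb, 0, by rw [norm_zero]; exact hr0, hξ20⟩ ⟨z0, hz0, hz0C⟩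
    exact hz2 (hVC hz1)
  intro z hz
  obtain ⟨w, hw, hwz⟩ := hDC hz
  rw [mem_closedBall, dist_zero_right] at hw
  exact ⟨ξ2, hξ2, w, hw.trans hr2, hwz⟩

end Pool.Agent.HQ
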