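import Pool.Agent.HQ.Defs

/-!
# HQL: Lemma P and the inclusion of the Julia set in the closure of the saddles (definitions)

Paper: `/team-store/HQL_paper.md` (sections 10 - 13 of `/team-store/HQJ_paper.md`).
-/

set_option autoImplicit false

open Filter Topology Set Metric

namespace Pool.Agent.HQ

/-- locally the real part of a holomorphic function -/
def LocRe (D : Set ℂ) (u : ℂ → ℝ) : Prop :=
  ∀ w ∈ D, ∃ ρ > 0, ∃ g : ℂ → ℂ, ball w ρ ⊆ D ∧ DifferentiableOn ℂ g (ball w ρ) ∧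
    ∀ z ∈ ball w ρ, u z = (g z).re

/-- where it is positive, the function is harmonic along holomorphic discs -/
def ReHol (u : E → ℝ) : Prop :=
  ∀ (γ : ℂ → E) (a : ℂ) (r : ℝ), 0 < r → DifferentiableOn ℂ γ (ball a r) →
    (∀ z ∈ ball a r, 0 < u (γ z)) → ∃ ρ > 0, ρ ≤ r ∧ ∃ g : ℂ → ℂ,
      DifferentiableOn ℂ g (ball a ρ) ∧ ∀ z ∈ ball a ρ, u (γ z) = (g z).re

/-- continuous, and touched from above by a harmonic function at every point -/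
structure SH (D : Set ℂ) (s : ℂ → ℝ) : Prop where
  cont : ContinuousOn s D
  touch : ∀ w ∈ D, ∃ ρ > 0, ∃ g : ℂ → ℂ, ball w ρ ⊆ D ∧ DifferentiableOn ℂ g (ball w ρ) ∧
    (g w).re = s w ∧ ∀ z ∈ ball w ρ, s z ≤ (g z).re

/-- the determinant of two vectors -/
def det2 (v w : E) : ℂ := v.1 * w.2 - v.2 * w.1

/-- `y` is in the closed box of size `ε` with centre `x` -/
def InB (a b : E → E →L[ℂ] ℂ) (ε : ℝ) (x y : E) : Prop := ‖a x (y - x)‖ ≤ ε ∧ ‖b x (y - x)‖ ≤ ε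

/-- `y` is in the open box of size `ε` with centre `x` -/
def InO (a b : E → E →L[ℂ] ℂ) (ε : ℝ) (x y : E) : Prop := ‖a x (y - x)‖ < ε ∧ ‖b x (y - x)‖ < ε

/-- hyperbolic boxes of size `ε` over the invariant set `Z` -/
structure HBox (G : Equiv.Perm E) (Z : Set E) (a b : E → E →L[ℂ] ℂ) (C ε : ℝ) : Prop where
  one_le : 1 ≤ C
  pos : 0 < ε
  inv : ∀ x, G x ∈ Z ↔ x ∈ Z
  na : ∀ x ∈ Z, ∀ v, ‖a x v‖ ≤ C * ‖v‖
  nb : ∀ x ∈ Z, ∀ v, ‖b x v‖ ≤ C * ‖v‖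
  low : ∀ x ∈ Z, ∀ v, ‖v‖ ≤ C * max ‖a x v‖ ‖b x v‖
  fa : ∀ x ∈ Z, ∀ y y', InB a b ε x y → InB a b ε x y' →
    20 * ‖a x (y - y')‖ - max ‖a x (y - y')‖ ‖b x (y - y')‖ / 20 ≤ ‖a (G x) (G y - G y')‖
  fb : ∀ x ∈ Z, ∀ y y', InB a b ε x y → InB a b ε x y' →
    ‖b (G x) (G y - G y')‖ ≤ max ‖a x (y - y')‖ ‖b x (y - y')‖ / 10
  ga : ∀ x ∈ Z, ∀ y y', InB a b ε x y → InB a b ε x y' →
    ‖a (G⁻¹ x) (G⁻¹ y - G⁻¹ y')‖ ≤ max ‖a x (y - y')‖ ‖b x (y - y')‖ / 10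
  gb : ∀ x ∈ Z, ∀ y y', InB a b ε x y → InB a b ε x y' →
    20 * ‖b x (y - y')‖ - max ‖a x (y - y')‖ ‖b x (y - y')‖ / 20 ≤
      ‖b (G⁻¹ x) (G⁻¹ y - G⁻¹ y')‖

/-- the coordinates are closed up to factors of modulus one -/
def BCl (Z : Set E) (a b : E → E →L[ℂ] ℂ) : Prop :=
  ∀ (x : ℕ → E) (x' : E), (∀ n, x n ∈ Z) → x' ∈ Z → Tendsto x atTop (𝓝 x') →
    ∃ φ : ℕ → ℕ, StrictMono φ ∧ ∃ ζ ω : ℂ, ‖ζ‖ = 1 ∧ ‖ω‖ = 1 ∧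
      ∀ (v : ℕ → E) (v' : E), Tendsto v atTop (𝓝 v') →
        Tendsto (fun n => a (x (φ n)) (v n)) atTop (𝓝 (ζ * a x' v')) ∧
        Tendsto (fun n => b (x (φ n)) (v n)) atTop (𝓝 (ω * b x' v'))

/-- lower bound of `u` on a sector of the unstable side of the boxes -/
def ArcP (G : Equiv.Perm E) (Z : Set E) (a b : E → E →L[ℂ] ℂ) (ε : ℝ) (u : E → ℝ)
    (c θ : ℝ) (n : ℕ) : Prop :=
  ∀ x ∈ Z, ∃ α : ℂ, ‖α‖ = ε ∧ ∀ Y : E,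
    (∀ j ≤ n, InB a b ε ((G⁻¹ ^ j) x) ((G⁻¹ ^ j) Y)) → ‖a x (Y - x) - α‖ ≤ θ → c ≤ u Y

/-- smallness near `Z` -/
def SmallN (Z : Set E) (u : E → ℝ) : Prop :=
  ∀ η > 0, ∃ δ > 0, ∀ x ∈ Z, ∀ Y, ‖Y - x‖ ≤ δ → u Y ≤ η

/-- a frame over `Z`: unstable and stable directions of `F ^ N` -/
structure Frm (G : Equiv.Perm E) (Z : Set E) (C : ℝ) (u s : E → E) : Prop where
  one_le : 1 ≤ C
  nu : ∀ x ∈ Z, ‖u x‖ = 1
  ns : ∀ x ∈ Z, ‖s x‖ = 1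
  tr : ∀ x ∈ Z, 1 / C ≤ ‖det2 (u x) (s x)‖
  fu : ∀ x ∈ Z, ∃ l : ℂ, 20 ≤ ‖l‖ ∧ fderiv ℂ (⇑G) x (u x) = l • u (G x)
  fs : ∀ x ∈ Z, ∃ l : ℂ, ‖l‖ ≤ 1 / 20 ∧ fderiv ℂ (⇑G) x (s x) = l • s (G x)
  cu : ∀ (x : ℕ → E) (x' e : E), (∀ n, x n ∈ Z) → x' ∈ Z → Tendsto x atTop (𝓝 x') →
    Tendsto (fun n => u (x n)) atTop (𝓝 e) → det2 e (u x') = 0
  cs : ∀ (x : ℕ → E) (x' e : E), (∀ n, x n ∈ Z) → x' ∈ Z → Tendsto x atTop (𝓝 x') →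
    Tendsto (fun n => s (x n)) atTop (𝓝 e) → det2 e (s x') = 0

/-- the unstable coordinate in the frame -/
noncomputable def coA (u s : E → E) (x : E) : E →L[ℂ] ℂ :=
  (det2 (u x) (s x))⁻¹ • ((s x).2 • ContinuousLinearMap.fst ℂ ℂ ℂ -
    (s x).1 • ContinuousLinearMap.snd ℂ ℂ ℂ)

/-- the stable coordinate in the frame -/
noncomputable def coB (u s : E → E) (x : E) : E →L[ℂ] ℂ :=
  (det2 (u x) (s x))⁻¹ • ((u x).1 • ContinuousLinearMap.snd ℂ ℂ ℂ -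
    (u x).2 • ContinuousLinearMap.fst ℂ ℂ ℂ)

/-- the curves of `U` centred in `Z` of order at least `m` -/
def QS.UZ (Q : QS) (Z : Set E) (m : ℕ) : Set (ℂ → E) :=
  {ξ | ξ ∈ Q.U ∧ ξ 0 ∈ Z ∧ ∀ i : ℕ, 0 < i → i < m → iteratedDeriv i ξ 0 = 0}

/-- uniform data for the curves centred in `Z` of maximal order -/
structure LdU (Q : QS) (Z : Set E) (m : ℕ) (c₁ c₂ : ℝ) : Prop where
  hm : 0 < m
  c₁pos : 0 < c₁
  ex : ∀ x ∈ Z, ∃ ξ ∈ Q.UZ Z m, ξ 0 = x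
  low : ∀ ξ ∈ Q.UZ Z m, c₁ ≤ ‖iteratedDeriv m ξ 0‖
  up : ∀ ξ ∈ Q.UZ Z m, ‖iteratedDeriv m ξ 0‖ ≤ c₂

/-- union of the unstable sets of the saddle points -/
def QS.WW (Q : QS) : Set E := ⋃ p ∈ Sad Q.F, Wu Q.F p

/-- the points of the unstable curves of `U` at parameters of modulus at most `R` -/
def QS.KR (Q : QS) (R : ℝ) : Set E := {x | ∃ ξ ∈ Q.U, ∃ z : ℂ, ‖z‖ ≤ R ∧ ξ z = x}

/-- limits of points of unstable manifolds of unbounded height -/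
def QS.Iu (Q : QS) : Set E := ⋂ R : ℕ, closure (Q.WW \ Q.KR R)

/-- frontier zeros of `P` along the unstable manifolds of saddle points are limits of saddle
points -/
def QS.F2 (Q : QS) : Prop :=
  ∀ p ∈ Sad Q.F, ∀ z, Q.P (Q.Xu p z) = 0 → (∃ᶠ t in 𝓝 z, 0 < Q.P (Q.Xu p t)) →
    Q.Xu p z ∈ closure (Sad Q.F)

/-- the frontier of `K⁻` is in the closure of the unstable manifolds of the saddle points -/
def QS.F1 (Q : QS) : Prop := frontier Q.Km ⊆ closure Q.WW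

end Pool.Agent.HQ
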