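import Pool.Agent.HQL.Defs
import Pool.Agent.HQ.UBas
import Pool.Agent.HQ.GrF
import Pool.Agent.HQD.ZZero

/-!
# HQL module U2: frontier zeros of limit curves (paper 10.1)
-/

set_option autoImplicit false

open Filter Topology Set Metric

namespace Pool.Agent.HQ

/-- the zero nearest to `a` is a frontier zero -/
theorem U2_near {u : ℂ → ℝ} (hu : Continuous u) (h0 : ∀ z, 0 ≤ u z) {a b : ℂ} (ha : 0 < u a)
    (hb : u b = 0) : ∃ b' : ℂ, dist b' a ≤ dist b a ∧ u b' = 0 ∧ ∃ᶠ t in 𝓝 b', 0 < u t := by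
  have hclosed : IsCompact (closedBall a (dist b a) ∩ {z | u z = 0}) :=
    (isCompact_closedBall a _).inter_right (isClosed_singleton.preimage hu)
  obtain ⟨b', ⟨hb1, hb2⟩, hbmin⟩ := hclosed.exists_isMinOn (f := fun z => dist z a)
    ⟨b, mem_closedBall.2 le_rfl, hb⟩ (by fun_prop)
  have hPb : u b' = 0 := hb2
  have hba : dist b' a ≤ dist b a := hb1
  have hab : 0 < dist b' a := by
    rw [dist_pos]
    rintro rfl
    rw [hPb] at ha
    exact lt_irrefl _ ha
  refine ⟨b', hba, hPb, ?_⟩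
  have hcl : b' ∈ closure (ball a (dist b' a)) := by
    rw [closure_ball a hab.ne']
    exact mem_closedBall.2 le_rfl
  refine (mem_closure_iff_frequently.1 hcl).mono fun t ht => ?_
  rcases (h0 t).eq_or_lt with h | h
  · exfalso
    have ht' : dist t a < dist b' a := ht
    have h1 : dist b' a ≤ dist t a := hbmin ⟨mem_closedBall.2 (ht'.le.trans hba), h.symm⟩
    linarith
  · exact h

/-- (10.1) -/
theorem U_F2 (Q : QS) (h : Q.F2) {ξ : ℂ → E} (hξ : ξ ∈ Q.U) {z : ℂ} (h0 : Q.P (ξ z) = 0)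
    (hf : ∃ᶠ t in 𝓝 z, 0 < Q.P (ξ t)) : ξ z ∈ closure (Sad Q.F) := by
  have hc := (U_diff Q hξ).continuous
  obtain ⟨p, hp, ht⟩ := hξ
  rw [← closure_closure, Metric.mem_closure_iff]
  intro ε hε
  obtain ⟨ρ, hρ, hρ'⟩ := Metric.continuous_iff.1 hc z (ε / 2) (half_pos hε)
  obtain ⟨a, ha1, ha2⟩ := (hf.and_eventually (ball_mem_nhds z (show 0 < ρ / 4 by positivity))).exists
  have hza : dist z a < ρ / 4 := by
    rw [dist_comm]
    exact ha2
  have e1 := zero_near Q.toSys isOpen_univ (g := ξ) (gs := fun n => Q.Xu (p n))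
    (fun n => (Q.hu _ (hp n)).diff.differentiableOn) hc.continuousOn
    (tendstoLocallyUniformlyOn_univ.2 ht) (a := a) (r := ρ / 2) (subset_univ _) ha1
    ⟨z, by rw [mem_ball]; linarith, h0⟩
  have e2 : ∀ᶠ n in atTop, 0 < Q.P (Q.Xu (p n) a) :=
    ((Q.cP.tendsto _).comp (UBas_pt ht a)).eventually_const_lt ha1
  have ht2 := ht
  rw [tendstoLocallyUniformly_iff_forall_isCompact] at ht2
  have e3 := Metric.tendstoUniformlyOn_iff.1 (ht2 (closedBall a (ρ / 2))
    (isCompact_closedBall _ _)) (ε / 2) (half_pos hε)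
  obtain ⟨n, ⟨⟨b, hb1, hb2⟩, hn2⟩, hn3⟩ := ((e1.and e2).and e3).exists
  obtain ⟨b', hb3, hb4, hb5⟩ := U2_near (u := fun t => Q.P (Q.Xu (p n) t))
    (Q.cP.comp (Q.hu _ (hp n)).diff.continuous) (fun t => Q.P0 _) hn2 hb2
  refine ⟨Q.Xu (p n) b', h (p n) (hp n) b' hb4 hb5, ?_⟩
  have hb1' : dist b a < ρ / 2 := hb1
  have h5 := hn3 b' (mem_closedBall.2 (by linarith))
  have h6 : dist b' z < ρ := by
    have := dist_triangle b' a z
    have h7 : dist a z < ρ / 4 := ha2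
    linarith
  have h7 := hρ' b' h6
  rw [dist_comm] at h7
  have := dist_triangle (ξ z) (ξ b') (Q.Xu (p n) b')
  linarith

end Pool.Agent.HQ
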