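import Pool.Agent.HQL.Ip
import Pool.Agent.HQL.U2
import Pool.Agent.HQD.N1

/-!
# HQL module Fs: frontier zeros on the stable side (paper HQD F2)
-/

set_option autoImplicit false

open Filter Topology Set Metric

namespace Pool.Agent.HQ

theorem Fs_Iu_pow (Q : QS) (n : ℕ) (x : E) (hx : x ∈ Q.Iu) : (Q.F ^ n) x ∈ Q.Iu := by
  induction n with
  | zero => exact hx
  | succ n ih =>
    rw [pow_succ', Equiv.Perm.mul_apply, Iu_inv]
    exact ih

theorem Fs_Xs_mem (Q : QS) {p : E} (hp : p ∈ Sad Q.F) : Q.Xs p ∈ Q.Us := by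
  have h := Xu_mem_U Q.dual (p := p) (by rw [Q.dual_Sad]; exact hp)
  rw [Q.dual_U] at h
  exact h

theorem F2_dual (Q : QS) (hP : LemP Q) (hF1 : Q.F1) (hF2 : Q.F2) :
    Q.dual.F2 := by
  intro p hp v h0 hf
  rw [Q.dual_Sad] at hp ⊢
  have h0' : Q.M (Q.Xs p v) = 0 := h0
  have hf' : ∃ᶠ t in 𝓝 v, 0 < Q.M (Q.Xs p t) := hf
  show Q.Xs p v ∈ closure (Sad Q.F)
  have hWs : Q.Xs p v ∈ Ws Q.F p := by
    rw [← Fr23_Xs_range Q hp]
    exact mem_range_self v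
  have hcont : Continuous (Q.Xs p) := (Q.hs p hp).diff.continuous
  have hfr : Q.Xs p v ∈ frontier Q.Km := by
    refine ⟨subset_closure h0', fun hi => ?_⟩
    have h1 : ∀ᶠ t in 𝓝 v, Q.Xs p t ∈ interior Q.Km :=
      hcont.continuousAt.tendsto (isOpen_interior.mem_nhds hi)
    obtain ⟨t, ht, ht'⟩ := (hf'.and_eventually h1).exists
    have h3 : Q.Xs p t ∈ Q.Km := interior_subset ht'
    have h2 : Q.M (Q.Xs p t) = 0 := h3
    rw [h2] at ht
    exact lt_irrefl _ ht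
  have hcl : Q.Xs p v ∈ closure Q.WW := hF1 hfr
  by_cases hI : Q.Xs p v ∈ Q.Iu
  · exfalso
    obtain ⟨k, hk, hkp, -⟩ := id hp
    have hk' : Tendsto (fun n : ℕ => k * n) atTop atTop :=
      Filter.tendsto_id.const_mul_atTop' hk
    have h1 : Tendsto (fun n : ℕ => dist ((Q.F ^ (k * n)) (Q.Xs p v)) ((Q.F ^ (k * n)) p)) atTop
        (𝓝 0) := Tendsto.comp hWs hk'
    have h2 : Tendsto (fun n : ℕ => (Q.F ^ (k * n)) (Q.Xs p v)) atTop (𝓝 p) := by
      rw [tendsto_iff_dist_tendsto_zero]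
      refine h1.congr fun n => ?_
      rw [Q.toSys.per_mul hkp n]
    have h3 : p ∈ Q.Iu := (Iu_closed Q).mem_of_tendsto h2
      (Eventually.of_forall fun n => Fs_Iu_pow Q _ _ hI)
    exact Iu_disj Q hP hF2 p h3 (subset_closure hp)
  · obtain ⟨R, ξ, hξ, z, -, hz⟩ := WW_dich Q hcl hI
    have h1 := (N1 Q hξ (Fs_Xs_mem Q hp) hz).1
    have h2 : Q.P (ξ z) = 0 := by
      rw [hz]
      exact Q.toSys.Ws_P hp hWs
    have h3 := U_F2 Q hF2 hξ h2 h1
    rw [hz] at h3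
    exact h3

end Pool.Agent.HQ
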