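import Pool.Agent.HQL.Defs

/-!
# HQL module Hb: consequences of the box inequalities
-/

set_option autoImplicit false

open Filter Topology Set Metric

namespace Pool.Agent.HQ

variable {G : Equiv.Perm E} {Z : Set E} {a b : E → E →L[ℂ] ℂ} {C ε : ℝ}

theorem hb_swap {a b : E → E →L[ℂ] ℂ} {ε : ℝ} {x y : E} (h : InB a b ε x y) :
    InB b a ε x y := ⟨h.2, h.1⟩

theorem hb_self {a b : E → E →L[ℂ] ℂ} {ε : ℝ} (h : 0 < ε) (x : E) : InB a b ε x x := by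
  unfold InB
  rw [sub_self, map_zero, map_zero, norm_zero]
  exact ⟨h.le, h.le⟩

theorem HBox.dual (h : HBox G Z a b C ε) : HBox G⁻¹ Z b a C ε where
  one_le := h.one_le
  pos := h.pos
  inv := fun x => by
    have h1 := h.inv (G⁻¹ x)
    have h2 : G (G⁻¹ x) = x := G.apply_symm_apply x
    rw [h2] at h1
    exact h1.symm
  na := h.nb
  nb := h.na
  low := fun x hx v => by
    rw [max_comm]
    exact h.low x hx v
  fa := fun x hx y y' h1 h2 => by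
    rw [max_comm]
    exact h.gb x hx y y' (hb_swap h1) (hb_swap h2)
  fb := fun x hx y y' h1 h2 => by
    rw [max_comm]
    exact h.ga x hx y y' (hb_swap h1) (hb_swap h2)
  ga := fun x hx y y' h1 h2 => by
    rw [max_comm, inv_inv]
    exact h.fb x hx y y' (hb_swap h1) (hb_swap h2)
  gb := fun x hx y y' h1 h2 => by
    rw [max_comm, inv_inv]
    exact h.fa x hx y y' (hb_swap h1) (hb_swap h2)

theorem HBox.mono (h : HBox G Z a b C ε) {ε' : ℝ} (h0 : 0 < ε') (h1 : ε' ≤ ε) :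
    HBox G Z a b C ε' where
  one_le := h.one_le
  pos := h0
  inv := h.inv
  na := h.na
  nb := h.nb
  low := h.low
  fa := fun x hx y y' h2 h3 =>
    h.fa x hx y y' ⟨h2.1.trans h1, h2.2.trans h1⟩ ⟨h3.1.trans h1, h3.2.trans h1⟩
  fb := fun x hx y y' h2 h3 =>
    h.fb x hx y y' ⟨h2.1.trans h1, h2.2.trans h1⟩ ⟨h3.1.trans h1, h3.2.trans h1⟩
  ga := fun x hx y y' h2 h3 =>
    h.ga x hx y y' ⟨h2.1.trans h1, h2.2.trans h1⟩ ⟨h3.1.trans h1, h3.2.trans h1⟩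
  gb := fun x hx y y' h2 h3 =>
    h.gb x hx y y' ⟨h2.1.trans h1, h2.2.trans h1⟩ ⟨h3.1.trans h1, h3.2.trans h1⟩

theorem HBox.step_a (h : HBox G Z a b C ε) {x y : E} (hx : x ∈ Z) (hy : InB a b ε x y)
    (he : ‖a x (y - x)‖ = ε) : ε < ‖a (G x) (G y - G x)‖ := by
  have h1 := h.fa x hx y x hy (hb_self h.pos x)
  have h2 : max ‖a x (y - x)‖ ‖b x (y - x)‖ ≤ ε := max_le hy.1 hy.2
  have h3 := h.pos
  rw [he] at h1 h2
  linarith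

theorem HBox.step_b (h : HBox G Z a b C ε) {x y : E} (hx : x ∈ Z) (hy : InB a b ε x y) :
    ‖b (G x) (G y - G x)‖ ≤ ε / 10 := by
  have h1 := h.fb x hx y x hy (hb_self h.pos x)
  have h2 : max ‖a x (y - x)‖ ‖b x (y - x)‖ ≤ ε := max_le hy.1 hy.2
  linarith

theorem HBox.back_a (h : HBox G Z a b C ε) {x y : E} (hx : x ∈ Z) (hy : InB a b ε x y) :
    ‖a (G⁻¹ x) (G⁻¹ y - G⁻¹ x)‖ ≤ ε / 10 := by
  have h1 := h.ga x hx y x hy (hb_self h.pos x)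
  have h2 : max ‖a x (y - x)‖ ‖b x (y - x)‖ ≤ ε := max_le hy.1 hy.2
  linarith

theorem hb_pow_mem (h : HBox G Z a b C ε) {x : E} (hx : x ∈ Z) (j : ℕ) : (G ^ j) x ∈ Z := by
  induction j with
  | zero => simpa using hx
  | succ j ih =>
    rw [pow_succ', Equiv.Perm.mul_apply]
    exact (h.inv _).mpr ih

theorem HBox.pow_mem (h : HBox G Z a b C ε) {x : E} (hx : x ∈ Z) (j : ℕ) :
    (G ^ j) x ∈ Z ∧ (G⁻¹ ^ j) x ∈ Z :=
  ⟨hb_pow_mem h hx j, hb_pow_mem h.dual hx j⟩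

theorem hb_back (h : HBox G Z a b C ε) {x Y Y' : E} (hx : x ∈ Z)
    (h0 : ‖a x (Y - Y')‖ ≤ ‖b x (Y - Y')‖) (n : ℕ)
    (hY : ∀ j ≤ n, InB a b ε ((G⁻¹ ^ j) x) ((G⁻¹ ^ j) Y))
    (hY' : ∀ j ≤ n, InB a b ε ((G⁻¹ ^ j) x) ((G⁻¹ ^ j) Y')) :
    ‖a ((G⁻¹ ^ n) x) ((G⁻¹ ^ n) Y - (G⁻¹ ^ n) Y')‖ ≤
      ‖b ((G⁻¹ ^ n) x) ((G⁻¹ ^ n) Y - (G⁻¹ ^ n) Y')‖ ∧
    10 ^ n * ‖b x (Y - Y')‖ ≤ ‖b ((G⁻¹ ^ n) x) ((G⁻¹ ^ n) Y - (G⁻¹ ^ n) Y')‖ := by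
  induction n with
  | zero =>
    refine ⟨?_, ?_⟩
    · simpa using h0
    · simp
  | succ n ih =>
    obtain ⟨h1, h2⟩ := ih (fun j hj => hY j (by omega)) (fun j hj => hY' j (by omega))
    have hz := (h.pow_mem hx n).2
    have h3 := h.ga _ hz _ _ (hY n (by omega)) (hY' n (by omega))
    have h4 := h.gb _ hz _ _ (hY n (by omega)) (hY' n (by omega))
    rw [max_eq_right h1] at h3 h4
    rw [pow_succ' G⁻¹ n, Equiv.Perm.mul_apply, Equiv.Perm.mul_apply, Equiv.Perm.mul_apply]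
    have h5 : 0 ≤ ‖b ((G⁻¹ ^ n) x) ((G⁻¹ ^ n) Y - (G⁻¹ ^ n) Y')‖ := norm_nonneg _
    refine ⟨by linarith, ?_⟩
    rw [pow_succ']
    linarith

theorem hb_unb {B M : ℝ} (hB : 0 ≤ B) (h : ∀ n : ℕ, 10 ^ n * B ≤ M) : B = 0 := by
  by_contra hne
  have hpos : 0 < B := lt_of_le_of_ne hB (Ne.symm hne)
  obtain ⟨n, hn⟩ := pow_unbounded_of_one_lt (M / B) (by norm_num : (1 : ℝ) < 10)
  rw [div_lt_iff₀ hpos] at hn
  exact absurd (h n) (not_le.mpr hn)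

/-- points with the same unstable coordinate whose backward orbits stay in the boxes are equal -/
theorem HBox.uniq (h : HBox G Z a b C ε) {x Y Y' : E} (hx : x ∈ Z)
    (hY : ∀ j : ℕ, InB a b ε ((G⁻¹ ^ j) x) ((G⁻¹ ^ j) Y))
    (hY' : ∀ j : ℕ, InB a b ε ((G⁻¹ ^ j) x) ((G⁻¹ ^ j) Y')) (h0 : a x (Y - Y') = 0) :
    Y = Y' := by
  have h1 : ‖a x (Y - Y')‖ ≤ ‖b x (Y - Y')‖ := by
    rw [h0, norm_zero]
    exact norm_nonneg _
  have h2 : ‖b x (Y - Y')‖ = 0 := by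
    refine hb_unb (norm_nonneg _) (M := 2 * ε) fun n => ?_
    have h3 := (hb_back h hx h1 n (fun j _ => hY j) (fun j _ => hY' j)).2
    refine h3.trans ?_
    have h4 : (G⁻¹ ^ n) Y - (G⁻¹ ^ n) Y' =
        ((G⁻¹ ^ n) Y - (G⁻¹ ^ n) x) - ((G⁻¹ ^ n) Y' - (G⁻¹ ^ n) x) := by abel
    rw [h4, map_sub]
    refine (norm_sub_le _ _).trans ?_
    have h5 := (hY n).2
    have h6 := (hY' n).2
    linarith
  have h3 := h.low x hx (Y - Y')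
  rw [h2, h0, norm_zero, max_self, mul_zero] at h3
  exact sub_eq_zero.mp (norm_le_zero_iff.mp h3)

theorem HBox.cone (h : HBox G Z a b C ε) {x Y : E} (hx : x ∈ Z)
    (hY : ∀ j : ℕ, InB a b ε ((G⁻¹ ^ j) x) ((G⁻¹ ^ j) Y)) :
    ‖b x (Y - x)‖ ≤ ‖a x (Y - x)‖ := by
  by_contra hcon
  have h1 : ‖a x (Y - x)‖ < ‖b x (Y - x)‖ := not_le.mp hcon
  have h2 : ‖b x (Y - x)‖ = 0 := by
    refine hb_unb (norm_nonneg _) (M := ε) fun n => ?_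
    exact ((hb_back h hx h1.le n (fun j _ => hY j) (fun j _ => hb_self h.pos _)).2).trans
      (hY n).2
  rw [h2] at h1
  exact absurd h1 (not_lt.mpr (norm_nonneg _))

theorem hb_deep1 (h : HBox G Z a b C ε) {x Y : E} (hx : x ∈ Z) {n : ℕ}
    (h0 : ‖a x (Y - x)‖ ≤ ‖b x (Y - x)‖)
    (hb : ∀ j ≤ n, InB a b ε ((G⁻¹ ^ j) x) ((G⁻¹ ^ j) Y)) :
    ‖b x (Y - x)‖ ≤ ε / 10 ^ n := by
  have h1 := ((hb_back h hx h0 n hb (fun j _ => hb_self h.pos _)).2).trans (hb n le_rfl).2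
  rw [le_div_iff₀ (by positivity)]
  linarith

theorem HBox.deep (h : HBox G Z a b C ε) {x Y : E} (hx : x ∈ Z) {n k : ℕ}
    (hb : ∀ j ≤ n, InB a b ε ((G⁻¹ ^ j) x) ((G⁻¹ ^ j) Y))
    (hf : ∀ j ≤ k, InB a b ε ((G ^ j) x) ((G ^ j) Y)) :
    ‖a x (Y - x)‖ ≤ ε / 10 ^ (min n k) ∧ ‖b x (Y - x)‖ ≤ ε / 10 ^ (min n k) := by
  have hmon : ∀ m, min n k ≤ m → ε / 10 ^ m ≤ ε / 10 ^ (min n k) := fun m hm =>
    div_le_div_of_nonneg_left h.pos.le (by positivity)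
      (pow_le_pow_right₀ (by norm_num) hm)
  rcases le_total ‖a x (Y - x)‖ ‖b x (Y - x)‖ with h0 | h0
  · have h1 := (hb_deep1 h hx h0 hb).trans (hmon n (min_le_left _ _))
    exact ⟨h0.trans h1, h1⟩
  · have hf' : ∀ j ≤ k, InB b a ε ((G⁻¹⁻¹ ^ j) x) ((G⁻¹⁻¹ ^ j) Y) := fun j hj => by
      rw [inv_inv]
      exact hb_swap (hf j hj)
    have h1 := (hb_deep1 h.dual hx h0 hf').trans (hmon k (min_le_right _ _))
    exact ⟨h1, h0.trans h1⟩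

end Pool.Agent.HQ
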