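import Pool.Agent.HQL.Defs
import Pool.Agent.HQ.Bas

/-!
# HQL module Zo: minimal sets
-/

set_option autoImplicit false

open Filter Topology Set Metric

namespace Pool.Agent.HQ

theorem exists_minimal (S : Sys) {A : Set E} (hA : IsCompact A) (hne : A.Nonempty)
    (hinv : ∀ x, S.F x ∈ A ↔ x ∈ A) :
    ∃ Z ⊆ A, IsClosed Z ∧ Z.Nonempty ∧ (∀ x, S.F x ∈ Z ↔ x ∈ Z) ∧
      ∀ W ⊆ Z, IsClosed W → W.Nonempty → (∀ x, S.F x ∈ W ↔ x ∈ W) → W = Z := by
  obtain ⟨Z, hZA, hZ⟩ := zorn_superset_nonempty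
    {W : Set E | W ⊆ A ∧ IsClosed W ∧ W.Nonempty ∧ ∀ x, S.F x ∈ W ↔ x ∈ W} (by
      intro c hc hch hcne
      have hcl : IsClosed (⋂₀ c) := isClosed_sInter fun s hs => (hc hs).2.1
      obtain ⟨s₀, hs₀⟩ := hcne
      have hsub : ⋂₀ c ⊆ A := (sInter_subset_of_mem hs₀).trans (hc hs₀).1
      refine ⟨⋂₀ c, ⟨hsub, hcl, ?_, ?_⟩, fun s hs => sInter_subset_of_mem hs⟩
      · have hcne' : c.Nonempty := ⟨s₀, hs₀⟩
        have : Nonempty c := ⟨⟨s₀, hs₀⟩⟩
        rw [sInter_eq_iInter]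
        apply IsCompact.nonempty_iInter_of_directed_nonempty_isCompact_isClosed
        · intro s t
          rcases hch.total s.2 t.2 with h | h
          · exact ⟨s, subset_rfl, h⟩
          · exact ⟨t, h, subset_rfl⟩
        · exact fun s => (hc s.2).2.2.1
        · exact fun s => hA.of_isClosed_subset (hc s.2).2.1 (hc s.2).1
        · exact fun s => (hc s.2).2.1
      · intro x
        constructor
        · intro h s hs
          exact ((hc hs).2.2.2 x).1 (h s hs)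
        · intro h s hs
          exact ((hc hs).2.2.2 x).2 (h s hs)) A
    ⟨subset_rfl, hA.isClosed, hne, hinv⟩
  refine ⟨Z, hZA, hZ.prop.2.1, hZ.prop.2.2.1, hZ.prop.2.2.2, fun W hW h1 h2 h3 => ?_⟩
  exact subset_antisymm hW (hZ.le_of_le ⟨hW.trans hZA, h1, h2, h3⟩ hW)

end Pool.Agent.HQ
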