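import Pool.Agent.HQD.SAll
import Pool.Agent.HQL.Ck
import Pool.Agent.HQL.Zo

/-!
# HQL module Ip: no unbounded heights at limits of saddles (paper 12.3)
-/

set_option autoImplicit false

open Filter Topology Set Metric

namespace Pool.Agent.HQ

theorem Iu_disj (Q : QS) (hP : LemP Q) (hF2 : Q.F2) :
    ∀ x ∈ Q.Iu, x ∉ closure (Sad Q.F) := by
  intro x₁ hx₁ hx₁s
  obtain ⟨c, hc, hcU⟩ := exists_cU Q
  obtain ⟨RK, hRK⟩ := Q.toSys.K_bdd
  have hAc : IsCompact (Q.Iu ∩ closure (Sad Q.F)) := by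
    refine Metric.isCompact_of_isClosed_isBounded ((Iu_closed Q).inter isClosed_closure) ?_
    refine (Metric.isBounded_closedBall (x := (0 : E)) (r := RK)).subset ?_
    rintro x ⟨-, hx⟩
    rw [mem_closedBall, dist_zero_right]
    exact hRK x (Q.toSys.clSad_P hx) (Q.toSys.clSad_M hx)
  have hAi : ∀ x, Q.F x ∈ Q.Iu ∩ closure (Sad Q.F) ↔ x ∈ Q.Iu ∩ closure (Sad Q.F) := by
    intro x
    have h1 := Q.toSys.mem_clSad 1 x
    rw [zpow_one] at h1
    exact and_congr (Iu_inv Q x) h1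
  obtain ⟨Z, hZA, hZc, hZn, hZi, hZm⟩ := exists_minimal Q.toSys hAc ⟨x₁, hx₁, hx₁s⟩ hAi
  obtain ⟨x₀, hx₀⟩ := hZn
  obtain ⟨p, z, hp, hl, hKR⟩ := Iu_seq Q (hZA hx₀).1
  have hev : ∀ᶠ n in atTop, Q.Xu (p n) (z n) ∈ ball x₀ (c / 2) :=
    hl (ball_mem_nhds _ (half_pos hc))
  obtain ⟨N, hN⟩ := eventually_atTop.1 hev
  refine hP Z hZc (fun x hx => (hZA hx).2) hZi hZm x₀ hx₀ (c / 2) (half_pos hc)
    (fun i => Q.Xu (p (i + N + 1))) (fun i => z (i + N + 1)) ?_ ?_ ?_ ?_ ?_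
  · intro i
    exact U_diff Q (Xu_mem_U Q (hp _))
  · intro i w
    exact U_M0 Q (Xu_mem_U Q (hp _)) w
  · intro i
    exact U_ne Q (Xu_mem_U Q (hp _))
  · have h : Tendsto (fun i : ℕ => i + N + 1) atTop atTop :=
      tendsto_atTop_mono (fun i => by omega : ∀ i : ℕ, i ≤ i + N + 1) tendsto_id
    exact hl.comp h
  · intro i w hw hPw
    by_contra hcon
    have hfr : ∃ᶠ t in 𝓝 w, 0 < Q.P (Q.Xu (p (i + N + 1)) t) := by
      have hcon2 := not_eventually.1 hcon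
      exact hcon2.mono fun t ht => lt_of_le_of_ne (Q.P0 _) (Ne.symm ht)
    have hws := hF2 _ (hp _) w hPw hfr
    have hmem : z (i + N + 1) ∈ connectedComponentIn
        ((Q.Xu (p (i + N + 1))) ⁻¹' ball x₀ (c / 2)) (z (i + N + 1)) :=
      mem_connectedComponentIn (hN _ (by omega))
    have hD1 : ∀ t ∈ connectedComponentIn
        ((Q.Xu (p (i + N + 1))) ⁻¹' ball x₀ (c / 2)) (z (i + N + 1)),
        Q.Xu (p (i + N + 1)) t ∈ ball x₀ (c / 2) :=
      fun t ht => connectedComponentIn_subset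
        ((Q.Xu (p (i + N + 1))) ⁻¹' ball x₀ (c / 2)) (z (i + N + 1)) ht
    have hB : ∀ x ∈ ball x₀ (c / 2), ∀ y ∈ ball x₀ (c / 2), ‖x - y‖ < c := by
      intro x hx y hy
      rw [mem_ball] at hx hy
      rw [← dist_eq_norm]
      calc dist x y ≤ dist x x₀ + dist y x₀ := dist_triangle_right _ _ _
        _ < c := by linarith
    have h5 := comp_KR Q hcU (Xu_mem_U Q (hp (i + N + 1))) hB
      isPreconnected_connectedComponentIn hD1 hw hws (z (i + N + 1)) hmem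
    refine hKR (i + N + 1) (KR_mono Q ?_ h5)
    have h6 : (0 : ℝ) ≤ (i : ℝ) := Nat.cast_nonneg i
    have h7 : (0 : ℝ) ≤ (N : ℝ) := Nat.cast_nonneg N
    push_cast
    linarith

end Pool.Agent.HQ
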