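import Pool.Agent.HQL.Defs
import Pool.Agent.HQ.UBas
import Pool.Agent.HQ.GrF

/-!
# HQL module Ku: unbounded heights (paper 10.4)
-/

set_option autoImplicit false

open Filter Topology Set Metric

namespace Pool.Agent.HQ

theorem KR_compact (Q : QS) (R : ℝ) : IsCompact (Q.KR R) := by
  apply IsSeqCompact.isCompact
  intro x hx
  choose ξ hξ u hu hxu using hx
  obtain ⟨φ, hφ, η, hη, hlim⟩ := U_seq Q hξ
  have hcomp : IsCompact (closedBall (0 : ℂ) R) := isCompact_closedBall 0 R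
  obtain ⟨w, hw, ψ, hψ, hlim2⟩ := hcomp.tendsto_subseq (x := fun n => u (φ n))
    (fun n => by rw [mem_closedBall_zero_iff]; exact hu _)
  have hψ' : Tendsto ψ atTop atTop := hψ.tendsto_atTop
  have hlim2' : Tendsto (fun n => u (φ (ψ n))) atTop (𝓝 w) := hlim2
  have hlim3 : TendstoLocallyUniformly (fun n => ξ (φ (ψ n))) η atTop := by
    intro s hs z
    obtain ⟨t, ht, h1⟩ := hlim s hs z
    exact ⟨t, ht, hψ'.eventually h1⟩
  have hηc : Continuous η := (U_diff Q hη).continuous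
  refine ⟨η w, ⟨η, hη, w, mem_closedBall_zero_iff.1 hw, rfl⟩, φ ∘ ψ, hφ.comp hψ, ?_⟩
  have h1 := UBas_cont Q hηc hlim3 hlim2'
  have h2 : (x ∘ (φ ∘ ψ)) = fun n => ξ (φ (ψ n)) (u (φ (ψ n))) :=
    funext fun n => (hxu _).symm
  rw [h2]
  exact h1

theorem KR_mono (Q : QS) {R R' : ℝ} (h : R ≤ R') : Q.KR R ⊆ Q.KR R' := by
  rintro x ⟨ξ, hξ, z, hz, hx⟩
  exact ⟨ξ, hξ, z, hz.trans h, hx⟩

theorem WW_mem (Q : QS) {p : E} (hp : p ∈ Sad Q.F) (z : ℂ) : Q.Xu p z ∈ Q.WW := by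
  refine mem_iUnion₂.2 ⟨p, hp, ?_⟩
  rw [← (Q.hu p hp).range]
  exact mem_range_self z

theorem WW_ex (Q : QS) {y : E} (hy : y ∈ Q.WW) : ∃ p ∈ Sad Q.F, ∃ z, Q.Xu p z = y := by
  obtain ⟨p, hp, h⟩ := mem_iUnion₂.1 hy
  rw [← (Q.hu p hp).range] at h
  exact ⟨p, hp, h⟩

theorem WW_inv (Q : QS) (x : E) : Q.F x ∈ Q.WW ↔ x ∈ Q.WW := by
  constructor
  · intro h
    obtain ⟨p, hp, h1⟩ := mem_iUnion₂.1 h
    refine mem_iUnion₂.2 ⟨Q.F⁻¹ p, ?_, ?_⟩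
    · have h2 := (Q.toSys.mem_Sad (-1) p).2 hp
      rwa [zpow_neg_one] at h2
    · have h2 := Q.toSys.mem_Wu 1 x (Q.F⁻¹ p)
      have h3 : Q.F (Q.F⁻¹ p) = p := Q.F.apply_symm_apply p
      rw [zpow_one, h3] at h2
      exact h2.1 h1
  · intro h
    obtain ⟨p, hp, h1⟩ := mem_iUnion₂.1 h
    refine mem_iUnion₂.2 ⟨Q.F p, (Q.toSys.mem_Sad_one p).2 hp, ?_⟩
    have h2 := Q.toSys.mem_Wu 1 x p
    rw [zpow_one] at h2
    exact h2.2 h1

/-- `F` and its inverse map `KR R` into `KR (Λ R)` -/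
theorem KR_step (Q : QS) {κ Λ : ℝ} (hg : Gr Q κ Λ) {R : ℝ} (hR : 0 ≤ R) {x : E}
    (hx : x ∈ Q.KR R) : Q.F x ∈ Q.KR (Λ * R) ∧ Q.F⁻¹ x ∈ Q.KR (Λ * R) := by
  have _ := hR
  obtain ⟨ξ, hξ, z, hz, rfl⟩ := hx
  obtain ⟨η, a, -, ha0, hηU, -, hFη, hrat⟩ := hg.orb ξ hξ
  have hκ := hg.one_lt
  have hΛ : 1 ≤ Λ := hκ.le.trans hg.le
  constructor
  · refine ⟨η 1, hηU 1, a 1 * z, ?_, ?_⟩
    · have h1 := (hrat 0).2
      rw [ha0, norm_one, mul_one, zero_add] at h1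
      rw [norm_mul]
      exact mul_le_mul h1 hz (norm_nonneg _) (by linarith)
    · rw [← hFη, zpow_one]
  · refine ⟨η (-1), hηU (-1), a (-1) * z, ?_, ?_⟩
    · have h1 := (hrat (-1)).1
      rw [neg_add_cancel, ha0, norm_one] at h1
      have h2 : ‖a (-1)‖ ≤ 1 := by
        have h3 := norm_nonneg (a (-1))
        nlinarith
      rw [norm_mul]
      exact mul_le_mul (h2.trans hΛ) hz (norm_nonneg _) (by linarith)
    · rw [← hFη, zpow_neg_one]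

theorem Iu_closed (Q : QS) : IsClosed Q.Iu := isClosed_iInter fun _ => isClosed_closure

theorem Iu_inv (Q : QS) (x : E) : Q.F x ∈ Q.Iu ↔ x ∈ Q.Iu := by
  obtain ⟨κ, Λ, hg⟩ := growth Q
  constructor
  · intro h
    refine mem_iInter.2 fun R => ?_
    obtain ⟨N, hN⟩ := exists_nat_ge (Λ * (R : ℝ))
    have h1 := mem_iInter.1 h N
    have h2 : Q.F⁻¹ (Q.F x) ∈ closure (Q.WW \ Q.KR R) := by
      refine map_mem_closure Q.dG.continuous h1 ?_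
      rintro y ⟨hy1, hy2⟩
      have hy3 : Q.F (Q.F⁻¹ y) = y := Q.F.apply_symm_apply y
      refine ⟨?_, fun hc => hy2 ?_⟩
      · rw [← WW_inv, hy3]
        exact hy1
      · have h3 := (KR_step Q hg (Nat.cast_nonneg R) hc).1
        rw [hy3] at h3
        exact KR_mono Q hN h3
    have h4 : Q.F⁻¹ (Q.F x) = x := Q.F.symm_apply_apply x
    rwa [h4] at h2
  · intro h
    refine mem_iInter.2 fun R => ?_
    obtain ⟨N, hN⟩ := exists_nat_ge (Λ * (R : ℝ))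
    have h1 := mem_iInter.1 h N
    refine map_mem_closure Q.dF.continuous h1 ?_
    rintro y ⟨hy1, hy2⟩
    have hy3 : Q.F⁻¹ (Q.F y) = y := Q.F.symm_apply_apply y
    refine ⟨(WW_inv Q y).2 hy1, fun hc => hy2 ?_⟩
    have h3 := (KR_step Q hg (Nat.cast_nonneg R) hc).2
    rw [hy3] at h3
    exact KR_mono Q hN h3

theorem Iu_seq (Q : QS) {x : E} (hx : x ∈ Q.Iu) : ∃ (p : ℕ → E) (z : ℕ → ℂ),
    (∀ n, p n ∈ Sad Q.F) ∧ Tendsto (fun n => Q.Xu (p n) (z n)) atTop (𝓝 x) ∧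
      ∀ n : ℕ, Q.Xu (p n) (z n) ∉ Q.KR n := by
  have h1 : ∀ n : ℕ, ∃ p ∈ Sad Q.F, ∃ z, dist x (Q.Xu p z) < 1 / ((n : ℝ) + 1) ∧
      Q.Xu p z ∉ Q.KR n := by
    intro n
    have h2 := mem_iInter.1 hx n
    obtain ⟨y, ⟨hy1, hy2⟩, hd⟩ := Metric.mem_closure_iff.1 h2 (1 / ((n : ℝ) + 1)) (by positivity)
    obtain ⟨p, hp, z, hz⟩ := WW_ex Q hy1
    refine ⟨p, hp, z, ?_, ?_⟩
    · rw [hz]
      exact hd
    · rw [hz]
      exact hy2
  choose p hp z hd hK using h1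
  refine ⟨p, z, hp, ?_, hK⟩
  rw [tendsto_iff_dist_tendsto_zero]
  refine squeeze_zero (fun n => dist_nonneg) (fun n => ?_) tendsto_one_div_add_atTop_nhds_zero_nat
  rw [dist_comm]
  exact (hd n).le

theorem WW_dich (Q : QS) {x : E} (hx : x ∈ closure Q.WW) (hI : x ∉ Q.Iu) :
    ∃ R : ℝ, x ∈ Q.KR R := by
  have h1 : ∃ R : ℕ, x ∉ closure (Q.WW \ Q.KR R) := by
    by_contra hcon
    push Not at hcon
    exact hI (mem_iInter.2 hcon)
  obtain ⟨R, hR⟩ := h1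
  refine ⟨R, ?_⟩
  rw [← sdiff_union_inter Q.WW (Q.KR R), closure_union] at hx
  have h2 := hx.resolve_left hR
  have h3 := closure_mono inter_subset_right h2
  rwa [(KR_compact Q R).isClosed.closure_eq] at h3

end Pool.Agent.HQ
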