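import Pool.Agent.HQL.Defs

/-!
# HQL module Mp: the minimum principle
-/

set_option autoImplicit false

open Filter Topology Set Metric

namespace Pool.Agent.HQ

theorem SH.min_principle {D : Set ℂ} {s : ℂ → ℝ} (hD : IsOpen D) (hs : SH D s)
    (h0 : ∀ w ∈ D, 0 ≤ s w) (hfr : ∀ w ∈ frontier D, ∀ᶠ z in 𝓝 w, z ∈ D → 1 ≤ s z)
    {e : ℂ} {r : ℝ} (hr : 0 < r) (he : ∀ z ∈ ball e r, z ∉ D) : ∀ w ∈ D, 1 ≤ s w := by
  intro w1 hw1
  by_contra hlt
  rw [not_le] at hlt
  have hdist : ∀ z ∈ D, r ≤ ‖z - e‖ := by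
    intro z hz
    by_contra h
    exact he z (by rw [mem_ball, dist_eq_norm]; exact not_le.1 h) hz
  have hlog : ∀ z ∈ D, 0 ≤ Real.log (‖z - e‖ / r) := fun z hz =>
    Real.log_nonneg ((one_le_div hr).2 (hdist z hz))
  have hne : ∀ z ∈ D, z - e ≠ 0 := by
    intro z hz h
    have := hdist z hz
    rw [h, norm_zero] at this
    exact absurd this (not_le.2 hr)
  set L : ℝ := Real.log (‖w1 - e‖ / r) with hL
  have hL0 : 0 ≤ L := hlog w1 hw1
  set k : ℝ := (1 - s w1) / (2 * (L + 1)) with hk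
  have hkpos : 0 < k := by
    rw [hk]
    exact div_pos (by linarith) (by linarith)
  set Φ : ℂ → ℝ := fun z => s z + k * Real.log (‖z - e‖ / r) with hΦ
  have hΦw : Φ w1 < 1 := by
    have h1 : k * (2 * (L + 1)) = 1 - s w1 := by
      rw [hk]
      exact div_mul_cancel₀ _ (by linarith)
    change s w1 + k * L < 1
    nlinarith [mul_nonneg hkpos.le hL0]
  have hΦc : ∀ z ∈ D, ContinuousAt Φ z := by
    intro z hz
    have h1 : ContinuousAt s z := hs.cont.continuousAt (hD.mem_nhds hz)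
    have h2 : ContinuousAt (fun z : ℂ => ‖z - e‖ / r) z := by fun_prop
    have h3 : ‖z - e‖ / r ≠ 0 := div_ne_zero (norm_ne_zero_iff.2 (hne z hz)) hr.ne'
    exact h1.add (continuousAt_const.mul (h2.log h3))
  set T : Set ℂ := {z | z ∈ D ∧ Φ z ≤ Φ w1} with hT
  have hTb : Bornology.IsBounded T := by
    refine (isBounded_closedBall (x := e) (r := r * Real.exp (1 / k))).subset ?_
    rintro z ⟨hz, hz2⟩
    rw [mem_closedBall, dist_eq_norm]
    have h1 : k * Real.log (‖z - e‖ / r) ≤ 1 := by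
      have h2 : s z + k * Real.log (‖z - e‖ / r) ≤ Φ w1 := hz2
      linarith [h0 z hz]
    have h3 : Real.log (‖z - e‖ / r) ≤ 1 / k := by
      rw [le_div_iff₀ hkpos]
      linarith
    have h4 : 0 < ‖z - e‖ / r := div_pos (norm_pos_iff.2 (hne z hz)) hr
    rw [Real.log_le_iff_le_exp h4, div_le_iff₀ hr] at h3
    linarith
  have hTc : IsClosed T := by
    refine isClosed_of_closure_subset fun z hz => ?_
    have hfreq : ∃ᶠ y in 𝓝 z, y ∈ T := mem_closure_iff_frequently.1 hz
    by_cases hzD : z ∈ D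
    · refine ⟨hzD, ?_⟩
      by_contra hcon
      rw [not_le] at hcon
      have h1 : ∀ᶠ y in 𝓝 z, Φ w1 < Φ y := (hΦc z hzD).eventually (lt_mem_nhds hcon)
      obtain ⟨y, hy1, hy2⟩ := (hfreq.and_eventually h1).exists
      exact absurd hy1.2 (not_le.2 hy2)
    · exfalso
      have h1 : z ∈ frontier D := by
        rw [hD.frontier_eq]
        exact ⟨closure_mono (fun y hy => hy.1) hz, hzD⟩
      obtain ⟨y, hy1, hy2⟩ := (hfreq.and_eventually (hfr z h1)).exists
      have h2 : s y + k * Real.log (‖y - e‖ / r) ≤ Φ w1 := hy1.2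
      have h3 := hy2 hy1.1
      have h4 := mul_nonneg hkpos.le (hlog y hy1.1)
      linarith
  have hTcomp : IsCompact T := Metric.isCompact_of_isClosed_isBounded hTc hTb
  obtain ⟨z0, hz0, hmin⟩ := hTcomp.exists_isMinOn ⟨w1, hw1, le_refl _⟩
    (fun z hz => (hΦc z hz.1).continuousWithinAt)
  have hmin' : ∀ z ∈ D, Φ z0 ≤ Φ z := by
    intro z hz
    by_cases hzT : Φ z ≤ Φ w1
    · exact hmin ⟨hz, hzT⟩
    · exact hz0.2.trans (not_le.1 hzT).le
  set Mm : Set ℂ := T ∩ {z | Φ z ≤ Φ z0} with hMm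
  have hMeq : Mm = {z | z ∈ D ∧ Φ z ≤ Φ z0} := by
    ext z
    constructor
    · rintro ⟨h1, h2⟩
      exact ⟨h1.1, h2⟩
    · rintro ⟨h1, h2⟩
      exact ⟨⟨h1, h2.trans hz0.2⟩, h2⟩
  have hMc : IsClosed Mm := by
    refine isClosed_of_closure_subset fun z hz => ?_
    have hzT : z ∈ T := hTc.closure_subset (closure_mono inter_subset_left hz)
    refine ⟨hzT, ?_⟩
    have hfreq : ∃ᶠ y in 𝓝 z, y ∈ Mm := mem_closure_iff_frequently.1 hz
    change Φ z ≤ Φ z0
    by_contra hcon
    rw [not_le] at hcon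
    have h1 : ∀ᶠ y in 𝓝 z, Φ z0 < Φ y := (hΦc z hzT.1).eventually (lt_mem_nhds hcon)
    obtain ⟨y, hy1, hy2⟩ := (hfreq.and_eventually h1).exists
    exact absurd hy1.2 (not_le.2 hy2)
  have hMcomp : IsCompact Mm := hTcomp.of_isClosed_subset hMc inter_subset_left
  have hMopen : IsOpen Mm := by
    rw [hMeq]
    refine isOpen_iff_mem_nhds.2 fun w hw => ?_
    obtain ⟨hwD, hwle⟩ := hw
    obtain ⟨ρ, hρ, g, hsub, hg, hgw, hgs⟩ := hs.touch w hwD
    have hnorm : ∀ z ∈ D, ‖Complex.exp (-(g z) / k) / (z - e)‖ =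
        Real.exp (-(g z).re / k - Real.log ‖z - e‖) := by
      intro z hz
      rw [norm_div, Complex.norm_exp, Real.exp_sub, Real.exp_log (norm_pos_iff.2 (hne z hz))]
      have : (-(g z) / (k : ℂ)).re = -(g z).re / k := by
        rw [Complex.div_ofReal_re, Complex.neg_re]
      rw [this]
    have hid : ∀ z ∈ D, -(s z) / k - Real.log ‖z - e‖ = -(Φ z) / k - Real.log r := by
      intro z hz
      have h1 : Real.log (‖z - e‖ / r) = Real.log ‖z - e‖ - Real.log r :=
        Real.log_div (norm_ne_zero_iff.2 (hne z hz)) hr.ne'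
      have h2 : Φ z = s z + k * (Real.log ‖z - e‖ - Real.log r) := by
        rw [← h1]
      rw [h2]
      field_simp
      ring
    have hup : ∀ z ∈ ball w ρ, -(g z).re / k - Real.log ‖z - e‖ ≤ -(Φ z0) / k - Real.log r := by
      intro z hz
      have hzD := hsub hz
      have h1 : -(g z).re / k ≤ -(s z) / k := by
        apply div_le_div_of_nonneg_right _ hkpos.le
        linarith [hgs z hz]
      have h2 : -(Φ z) / k ≤ -(Φ z0) / k := by
        apply div_le_div_of_nonneg_right _ hkpos.le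
        linarith [hmin' z hzD]
      have h3 := hid z hzD
      linarith
    have hweq : -(g w).re / k - Real.log ‖w - e‖ = -(Φ z0) / k - Real.log r := by
      rw [hgw, hid w hwD, le_antisymm hwle (hmin' w hwD)]
    have hd : ∀ᶠ z in 𝓝 w, DifferentiableAt ℂ
        (fun z => Complex.exp (-(g z) / k) / (z - e)) z := by
      filter_upwards [isOpen_ball.mem_nhds (mem_ball_self hρ)] with z hz
      have h1 : DifferentiableAt ℂ g z := hg.differentiableAt (isOpen_ball.mem_nhds hz)
      have h2 : DifferentiableAt ℂ (fun z => Complex.exp (-(g z) / k)) z :=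
        (h1.neg.div_const _).cexp
      exact h2.div (differentiableAt_id.sub_const e) (hne z (hsub hz))
    have hl : IsLocalMax (norm ∘ fun z => Complex.exp (-(g z) / k) / (z - e)) w := by
      filter_upwards [ball_mem_nhds w hρ] with z hz
      simp only [Function.comp_apply]
      rw [hnorm z (hsub hz), hnorm w hwD]
      apply Real.exp_le_exp.2
      rw [hweq]
      exact hup z hz
    filter_upwards [Complex.norm_eventually_eq_of_isLocalMax hd hl, ball_mem_nhds w hρ] with z hz hzb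
    have hzD := hsub hzb
    rw [hnorm z hzD, hnorm w hwD] at hz
    have h1 := Real.exp_injective hz
    rw [hweq] at h1
    refine ⟨hzD, ?_⟩
    have h2 := hid z hzD
    have h3 : -(g z).re / k ≤ -(s z) / k := by
      apply div_le_div_of_nonneg_right _ hkpos.le
      linarith [hgs z hzb]
    have h4 : -(Φ z0) / k ≤ -(Φ z) / k := by linarith
    rw [div_le_div_iff_of_pos_right hkpos] at h4
    linarith
  have hz0M : z0 ∈ Mm := by
    rw [hMeq]
    exact ⟨hz0.1, le_refl (Φ z0)⟩
  have huniv : Mm = univ := IsClopen.eq_univ ⟨hMc, hMopen⟩ ⟨z0, hz0M⟩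
  rw [huniv] at hMcomp
  exact noncompact_univ ℂ hMcomp

end Pool.Agent.HQ
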