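import Pool.Agent.HQL.Defs
import Pool.Agent.HQ.Bas

/-!
# HQL module Mx: the maximum principle along curves
-/

set_option autoImplicit false

open Filter Topology Set Metric

namespace Pool.Agent.HQ

/-- if the real part of a holomorphic function has a local maximum it is locally constant -/
theorem Mx_re_const {g : ℂ → ℂ} {w : ℂ} {ρ : ℝ} (hρ : 0 < ρ)
    (hg : DifferentiableOn ℂ g (ball w ρ)) (hmax : ∀ z ∈ ball w ρ, (g z).re ≤ (g w).re) :
    ∀ᶠ z in 𝓝 w, (g z).re = (g w).re := by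
  have hball : ball w ρ ∈ 𝓝 w := ball_mem_nhds w hρ
  have hd : ∀ᶠ z in 𝓝 w, DifferentiableAt ℂ (fun z => Complex.exp (g z)) z := by
    filter_upwards [isOpen_ball.mem_nhds (mem_ball_self hρ)] with z hz
    exact (hg.differentiableAt (isOpen_ball.mem_nhds hz)).cexp
  have hl : IsLocalMax (norm ∘ fun z => Complex.exp (g z)) w := by
    filter_upwards [hball] with z hz
    simp only [Function.comp_apply, Complex.norm_exp]
    exact Real.exp_le_exp.2 (hmax z hz)
  filter_upwards [Complex.norm_eventually_eq_of_isLocalMax hd hl] with z hz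
  simp only [Complex.norm_exp] at hz
  exact Real.exp_injective hz

/-- a nonempty compact set of complex numbers is not open -/
theorem Mx_not_open {K : Set ℂ} (hK : IsCompact K) (hne : K.Nonempty) (ho : IsOpen K) : False := by
  have h : K = univ := IsClopen.eq_univ ⟨hK.isClosed, ho⟩ hne
  rw [h] at hK
  exact noncompact_univ ℂ hK

theorem P_zero_of_frontier (S : Sys) (hP : ReHol S.P) {V : Set ℂ} (hV : IsOpen V)
    (hb : Bornology.IsBounded V) {γ : ℂ → E} (hγ : Differentiable ℂ γ)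
    (h0 : ∀ z ∈ frontier V, S.P (γ z) = 0) : ∀ z ∈ V, S.P (γ z) = 0 := by
  intro z0 hz0
  by_contra hne
  have hpos : 0 < S.P (γ z0) := lt_of_le_of_ne (S.P0 _) (Ne.symm hne)
  have hcont : Continuous fun z => S.P (γ z) := S.cP.comp hγ.continuous
  obtain ⟨zm, hzm, hmax⟩ := (hb.isCompact_closure).exists_isMaxOn ⟨z0, subset_closure hz0⟩
    hcont.continuousOn
  have hmax' : ∀ z ∈ closure V, S.P (γ z) ≤ S.P (γ zm) := fun z hz => hmax hz
  have hmu : 0 < S.P (γ zm) := lt_of_lt_of_le hpos (hmax' z0 (subset_closure hz0))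
  set Mm : Set ℂ := closure V ∩ {z | S.P (γ z) = S.P (γ zm)} with hMm
  have hcomp : IsCompact Mm :=
    hb.isCompact_closure.inter_right (isClosed_eq hcont continuous_const)
  have hsub : ∀ w ∈ Mm, w ∈ V := by
    intro w hw
    by_contra hwV
    have h1 : w ∈ frontier V := by rw [hV.frontier_eq]; exact ⟨hw.1, hwV⟩
    have h2 : S.P (γ w) = S.P (γ zm) := hw.2
    rw [h0 w h1] at h2
    exact hmu.ne h2
  refine Mx_not_open hcomp ⟨zm, hzm, rfl⟩ (isOpen_iff_mem_nhds.2 fun w hw => ?_)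
  have hwV := hsub w hw
  have hwP : S.P (γ w) = S.P (γ zm) := hw.2
  have hev : ∀ᶠ z in 𝓝 w, 0 < S.P (γ z) ∧ z ∈ V :=
    ((hcont.tendsto w).eventually (lt_mem_nhds (by rw [hwP]; exact hmu))).and (hV.mem_nhds hwV)
  obtain ⟨r, hr, hrb⟩ := Metric.eventually_nhds_iff_ball.1 hev
  obtain ⟨ρ, hρ, hρr, g, hg, hgz⟩ := hP γ w r hr hγ.differentiableOn fun z hz => (hrb z hz).1
  have hgw : S.P (γ w) = (g w).re := hgz w (mem_ball_self hρ)
  have hle : ∀ z ∈ ball w ρ, (g z).re ≤ (g w).re := by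
    intro z hz
    rw [← hgz z hz, ← hgw, hwP]
    exact hmax' z (subset_closure (hrb z (ball_subset_ball hρr hz)).2)
  filter_upwards [Mx_re_const hρ hg hle, ball_mem_nhds w hρ] with z hz hzb
  refine ⟨subset_closure (hrb z (ball_subset_ball hρr hzb)).2, ?_⟩
  change S.P (γ z) = S.P (γ zm)
  rw [hgz z hzb, hz, ← hgw, hwP]

end Pool.Agent.HQ
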