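import Pool.Agent.HQL.Fs
import Pool.Agent.HQL.Ku
import Pool.Agent.HQL.Ip
import Pool.Agent.HQL.U2
import Pool.Agent.HQD.N1
import Pool.Agent.HQ.Fr23

/-!
# HQL module No: no interior zeros on the stable curves (paper 10.5, 13.1)
-/

set_option autoImplicit false

open Filter Topology Set Metric

namespace Pool.Agent.HQ

theorem no_int (Q : QS) (hP : LemP Q) (hF1 : Q.F1) (hF2 : Q.F2)
    (hV : interior Q.Km ⊆ interior Q.Kp) :
    ∀ σ ∈ Q.Us, ∀ v, Q.M (σ v) = 0 → ∃ᶠ t in 𝓝 v, 0 < Q.M (σ t) := by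
  intro σ hσ v₀ _
  by_contra hcon
  have hσd : σ ∈ Q.dual.U := by rw [Q.dual_U]; exact hσ
  have dσ : Differentiable ℂ σ := U_diff Q.dual hσd
  have key : ∀ v, ¬ (∃ᶠ t in 𝓝 v, 0 < Q.M (σ t)) → v ∈ interior {v | Q.M (σ v) = 0} := by
    intro v hv
    rw [mem_interior_iff_mem_nhds]
    exact (not_frequently.1 hv).mono fun t ht => le_antisymm (not_lt.1 ht) (Q.M0 _)
  have hOv : v₀ ∈ interior {v | Q.M (σ v) = 0} := key v₀ hcon
  have hsub : ∀ v, v ∈ interior {v | Q.M (σ v) = 0} → Q.M (σ v) = 0 := by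
    intro v hv
    have h1 := interior_subset hv
    exact h1
  obtain ⟨z₁, -, hz₁⟩ := U_eq_one Q.dual hσd
  have hz₁' : Q.M (σ z₁) = 1 := hz₁
  have hne : interior {v | Q.M (σ v) = 0} ≠ univ := by
    intro h
    have h1 : z₁ ∈ interior {v | Q.M (σ v) = 0} := by rw [h]; trivial
    have h2 : Q.M (σ z₁) = 0 := hsub _ h1
    rw [h2] at hz₁'
    exact zero_ne_one hz₁'
  have hfr : (frontier (interior {v | Q.M (σ v) = 0})).Nonempty := by
    rw [nonempty_frontier_iff]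
    exact ⟨⟨v₀, hOv⟩, hne⟩
  obtain ⟨w, hw⟩ := hfr
  have hwcl : w ∈ closure (interior {v | Q.M (σ v) = 0}) := frontier_subset_closure hw
  have hwn : w ∉ interior {v | Q.M (σ v) = 0} := by
    rw [isOpen_interior.frontier_eq] at hw
    exact hw.2
  have hcl0 : IsClosed {v | Q.M (σ v) = 0} :=
    isClosed_eq (Q.cM.comp dσ.continuous) continuous_const
  have hw0 : Q.M (σ w) = 0 := hcl0.closure_subset_iff.2 interior_subset hwcl
  have hIu : ∀ v ∈ interior {v | Q.M (σ v) = 0}, σ v ∈ Q.Iu := by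
    intro v hv
    have h0 : Q.M (σ v) = 0 := hsub _ hv
    have h1 : σ v ∉ interior Q.Km := fun h => Us_not_int Q hσ v (hV h)
    have h2 : σ v ∈ frontier Q.Km := ⟨subset_closure h0, h1⟩
    by_contra hI
    obtain ⟨R, ξ, hξ, z, -, hz⟩ := WW_dich Q (hF1 h2) hI
    have h3 := (N1 Q hξ hσ hz).2
    have h4 : ∀ᶠ t in 𝓝 v, Q.M (σ t) = 0 := mem_interior_iff_mem_nhds.1 hv
    obtain ⟨t, ht1, ht2⟩ := (h3.and_eventually h4).exists
    rw [ht2] at ht1
    exact lt_irrefl _ ht1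
  have hwI : σ w ∈ Q.Iu := by
    have h1 : IsClosed (σ ⁻¹' Q.Iu) := (Iu_closed Q).preimage dσ.continuous
    exact h1.closure_subset_iff.2 hIu hwcl
  have hfq : ∃ᶠ t in 𝓝 w, 0 < Q.M (σ t) := by
    by_contra h
    exact hwn (key w h)
  have hd := U_F2 Q.dual (F2_dual Q hP hF1 hF2) hσd hw0 hfq
  rw [Q.dual_Sad] at hd
  exact Iu_disj Q hP hF2 _ hwI hd

end Pool.Agent.HQ
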