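import Pool.Agent.HQL.Hb
import Pool.Agent.HQL.Mx
import Pool.Agent.HQL.Cu
import Pool.Agent.HQ.UBas
import Pool.Agent.HQ.GrF

/-!
# HQL module Pt: escaping points on the local unstable leaves
-/

set_option autoImplicit false

open Filter Topology Set Metric

namespace Pool.Agent.HQ

theorem Pt_iter (F : Equiv.Perm E) (N j : ℕ) (y : E) :
    ((F ^ N)⁻¹ ^ j) y = (F⁻¹ ^ (N * j)) y := by
  rw [← inv_pow, ← pow_mul]

theorem Pt_cont (Q : QS) (n : ℕ) : Continuous (⇑(Q.F⁻¹ ^ n)) := by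
  induction n with
  | zero => simpa using continuous_id
  | succ n ih =>
    rw [pow_succ]
    have h1 : (⇑(Q.F⁻¹ ^ n * Q.F⁻¹)) = (⇑(Q.F⁻¹ ^ n)) ∘ (⇑(Q.F⁻¹)) := rfl
    rw [h1]
    exact ih.comp Q.dG.continuous

theorem exists_pt (Q : QS) (hP : ReHol Q.P) {N : ℕ} (hN : 0 < N) {Z : Set E}
    (hZs : Z ⊆ closure (Sad Q.F)) {a b : E → E →L[ℂ] ℂ} {C ε₀ : ℝ}
    (hB : HBox (Q.F ^ N) Z a b C ε₀) :
    ∃ ε₁ > 0, ε₁ ≤ ε₀ ∧ ∀ ε, 0 < ε → ε ≤ ε₁ → ∀ x ∈ Z, ∃ Y : E,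
      (∀ j : ℕ, InB a b ε (((Q.F ^ N)⁻¹ ^ j) x) (((Q.F ^ N)⁻¹ ^ j) Y)) ∧
        ‖a x (Y - x)‖ = ε ∧ 0 < Q.P Y := by
  obtain ⟨c, hc, hcU⟩ := exists_cU Q
  have hC1 := hB.one_le
  have hC0 : 0 < C := lt_of_lt_of_le one_pos hC1
  refine ⟨min ε₀ (c / (4 * C)), lt_min hB.pos (by positivity), min_le_left _ _, ?_⟩
  intro ε hε hε1 x hx
  have hεc : C * ε ≤ c / 4 := by
    have h1 : ε ≤ c / (4 * C) := hε1.trans (min_le_right _ _)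
    rw [le_div_iff₀ (by positivity)] at h1
    linarith
  have hBe : HBox (Q.F ^ N) Z a b C ε := hB.mono hε (hε1.trans (min_le_left _ _))
  obtain ⟨p, hp, ξ, hξ, hξ0, hlim⟩ := U_center Q (hZs hx)
  obtain ⟨κ, Λ, hg⟩ := growth Q
  obtain ⟨C', hC', hback⟩ := hg.back 1
  obtain ⟨r, hr1, hr2, hr3⟩ := hcU ξ hξ
  have hκ0 : 0 < κ := lt_trans one_pos hg.one_lt
  set G := Q.F ^ N with hG
  have hxj : ∀ j : ℕ, (G⁻¹ ^ j) x ∈ Z := fun j => (hBe.pow_mem hx j).2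
  have hfc : ∀ j : ℕ, Continuous fun z : ℂ => (G⁻¹ ^ j) (ξ z) := by
    intro j
    have h1 : (fun z : ℂ => (G⁻¹ ^ j) (ξ z)) = fun z => (Q.F⁻¹ ^ (N * j)) (ξ z) := by
      funext z
      exact Pt_iter Q.F N j (ξ z)
    rw [h1]
    exact (Pt_cont Q _).comp (U_diff Q hξ).continuous
  -- the tail
  obtain ⟨J, hJ⟩ : ∃ J : ℕ, ∀ j ≥ J, C * (C' * κ⁻¹ ^ (N * j)) < ε := by
    have h1 : Tendsto (fun n : ℕ => C * (C' * κ⁻¹ ^ n)) atTop (𝓝 (C * (C' * 0))) :=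
      ((tendsto_pow_atTop_nhds_zero_of_lt_one (inv_nonneg.2 hκ0.le)
        (inv_lt_one_of_one_lt₀ hg.one_lt)).const_mul C').const_mul C
    rw [mul_zero, mul_zero] at h1
    obtain ⟨J, hJ⟩ := eventually_atTop.1 (h1.eventually (gt_mem_nhds hε))
    refine ⟨J, fun j hj => hJ _ ?_⟩
    calc J ≤ j := hj
      _ = 1 * j := (one_mul _).symm
      _ ≤ N * j := Nat.mul_le_mul_right _ hN
  have htail : ∀ j ≥ J, ∀ z : ℂ, ‖z‖ ≤ 1 → InO a b ε ((G⁻¹ ^ j) x) ((G⁻¹ ^ j) (ξ z)) := by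
    intro j hj z hz
    have h1 := hback ξ hξ z hz (N * j)
    rw [← Pt_iter, ← Pt_iter, hξ0, dist_eq_norm] at h1
    have h2 : ‖(G⁻¹ ^ j) (ξ z) - (G⁻¹ ^ j) x‖ ≤ C' * κ⁻¹ ^ (N * j) := by
      refine h1.trans ?_
      have h3 : 0 ≤ C' * κ⁻¹ ^ (N * j) := mul_nonneg hC' (pow_nonneg (inv_nonneg.2 hκ0.le) _)
      calc C' * κ⁻¹ ^ (N * j) * ‖z‖ ≤ C' * κ⁻¹ ^ (N * j) * 1 := mul_le_mul_of_nonneg_left hz h3
        _ = _ := mul_one _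
    have h4 : C * ‖(G⁻¹ ^ j) (ξ z) - (G⁻¹ ^ j) x‖ < ε :=
      lt_of_le_of_lt (mul_le_mul_of_nonneg_left h2 hC0.le) (hJ j hj)
    exact ⟨lt_of_le_of_lt (hBe.na _ (hxj j) _) h4, lt_of_le_of_lt (hBe.nb _ (hxj j) _) h4⟩
  -- the open set
  set V : Set ℂ := ball 0 r ∩ ⋂ j ∈ Finset.range J, {z | InO a b ε ((G⁻¹ ^ j) x) ((G⁻¹ ^ j) (ξ z))}
    with hV
  have hac : ∀ j : ℕ, Continuous fun z : ℂ => ‖a ((G⁻¹ ^ j) x) ((G⁻¹ ^ j) (ξ z) - (G⁻¹ ^ j) x)‖ :=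
    fun j => ((a _).continuous.comp ((hfc j).sub continuous_const)).norm
  have hbc : ∀ j : ℕ, Continuous fun z : ℂ => ‖b ((G⁻¹ ^ j) x) ((G⁻¹ ^ j) (ξ z) - (G⁻¹ ^ j) x)‖ :=
    fun j => ((b _).continuous.comp ((hfc j).sub continuous_const)).norm
  have hVo : IsOpen V := by
    refine isOpen_ball.inter ?_
    refine isOpen_biInter_finset fun j _ => ?_
    exact (isOpen_lt (hac j) continuous_const).inter (isOpen_lt (hbc j) continuous_const)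
  have hVmem : ∀ z : ℂ, z ∈ V ↔ ‖z‖ < r ∧ ∀ j : ℕ, InO a b ε ((G⁻¹ ^ j) x) ((G⁻¹ ^ j) (ξ z)) := by
    intro z
    constructor
    · rintro ⟨h1, h2⟩
      rw [mem_ball_zero_iff] at h1
      refine ⟨h1, fun j => ?_⟩
      rcases lt_or_ge j J with h | h
      · exact mem_iInter₂.1 h2 j (Finset.mem_range.2 h)
      · exact htail j h z (h1.le.trans hr2)
    · rintro ⟨h1, h2⟩
      exact ⟨mem_ball_zero_iff.2 h1, mem_iInter₂.2 fun j _ => h2 j⟩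
  have h0V : (0 : ℂ) ∈ V := by
    rw [hVmem]
    refine ⟨by rw [norm_zero]; linarith, fun j => ?_⟩
    rw [hξ0]
    constructor
    · rw [sub_self, map_zero, norm_zero]
      exact hε
    · rw [sub_self, map_zero, norm_zero]
      exact hε
  have hVb : Bornology.IsBounded V := isBounded_ball.subset inter_subset_left
  have hfr : ∀ z ∈ frontier V, (∀ j : ℕ, InB a b ε ((G⁻¹ ^ j) x) ((G⁻¹ ^ j) (ξ z))) ∧
      ‖a x (ξ z - x)‖ = ε := by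
    intro z hz
    rw [hVo.frontier_eq] at hz
    obtain ⟨hz1, hz2⟩ := hz
    have hcl : IsClosed {z : ℂ | ‖z‖ ≤ r ∧ ∀ j : ℕ,
        InB a b ε ((G⁻¹ ^ j) x) ((G⁻¹ ^ j) (ξ z))} := by
      refine (isClosed_le continuous_norm continuous_const).inter ?_
      have h1 : {z : ℂ | ∀ j : ℕ, InB a b ε ((G⁻¹ ^ j) x) ((G⁻¹ ^ j) (ξ z))} =
          ⋂ j : ℕ, {z : ℂ | InB a b ε ((G⁻¹ ^ j) x) ((G⁻¹ ^ j) (ξ z))} := by
        ext z
        simp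
      change IsClosed {z : ℂ | ∀ j : ℕ, InB a b ε ((G⁻¹ ^ j) x) ((G⁻¹ ^ j) (ξ z))}
      rw [h1]
      refine isClosed_iInter fun j => ?_
      exact (isClosed_le (hac j) continuous_const).inter (isClosed_le (hbc j) continuous_const)
    obtain ⟨h1, h2⟩ := hcl.closure_subset_iff.2 (fun w hw => by
      rw [hVmem] at hw
      exact ⟨hw.1.le, fun j => ⟨(hw.2 j).1.le, (hw.2 j).2.le⟩⟩) hz1
    have h0 := h2 0
    rw [pow_zero, Equiv.Perm.coe_one, id, id] at h0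
    have h3 : ‖z‖ < r := by
      refine lt_of_le_of_ne h1 fun h => ?_
      have h4 := hr3 z h
      rw [hξ0] at h4
      have h5 := hBe.low x hx (ξ z - x)
      have h6 : C * max ‖a x (ξ z - x)‖ ‖b x (ξ z - x)‖ ≤ C * ε :=
        mul_le_mul_of_nonneg_left (max_le h0.1 h0.2) hC0.le
      linarith
    refine ⟨h2, ?_⟩
    rw [hVmem] at hz2
    have h7 : ¬ ∀ j : ℕ, InO a b ε ((G⁻¹ ^ j) x) ((G⁻¹ ^ j) (ξ z)) := fun h => hz2 ⟨h3, h⟩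
    rw [not_forall] at h7
    obtain ⟨j, hj⟩ := h7
    have hcone := hBe.cone (hxj j) (Y := (G⁻¹ ^ j) (ξ z)) (fun i => by
      have h8 := h2 (i + j)
      rw [pow_add, Equiv.Perm.mul_apply, Equiv.Perm.mul_apply] at h8
      exact h8)
    have h9 : ε ≤ ‖a ((G⁻¹ ^ j) x) ((G⁻¹ ^ j) (ξ z) - (G⁻¹ ^ j) x)‖ := by
      by_contra hcon
      rw [not_le] at hcon
      exact hj ⟨hcon, lt_of_le_of_lt hcone hcon⟩
    rcases Nat.eq_zero_or_pos j with rfl | hjp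
    · rw [pow_zero, Equiv.Perm.coe_one, id, id] at h9
      exact le_antisymm h0.1 h9
    · obtain ⟨i, rfl⟩ : ∃ i, j = i + 1 := ⟨j - 1, by omega⟩
      have h10 := hBe.back_a (hxj i) (h2 i)
      rw [pow_succ', Equiv.Perm.mul_apply, Equiv.Perm.mul_apply] at h9
      linarith
  by_contra hcon
  have hz : ∀ z ∈ frontier V, Q.toSys.P (ξ z) = 0 := by
    intro z hz
    obtain ⟨h1, h2⟩ := hfr z hz
    by_contra h3
    exact hcon ⟨ξ z, h1, h2, lt_of_le_of_ne (Q.P0 _) (Ne.symm h3)⟩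
  have hz2 := P_zero_of_frontier Q.toSys hP hVo hVb (U_diff Q hξ) hz
  obtain ⟨ρ, hρ, hρV⟩ := Metric.isOpen_iff.1 hVo 0 h0V
  obtain ⟨w, hw, hPw⟩ := U_pos Q hξ hρ
  exact hPw.ne' (hz2 w (hρV hw))

end Pool.Agent.HQ
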